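import Mathlib

/-!
# One-variable power series over a complete local ring

If `S` is a local ring with maximal ideal generated by the list `ys`, then `S⟦X⟧` is a local ring
with maximal ideal generated by `ys.map C ++ [X]`, the same residue field, and it is precomplete if
`S` is.  Moreover every ring homomorphism `S → R` to a complete local Noetherian ring extends to
`S⟦X⟧` with an arbitrary value in the maximal ideal at `X`.
-/

set_option autoImplicit false

namespace Pool.Agent.W_cbb711

open IsLocalRing PowerSeries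

section

variable {S : Type*} [CommRing S] [IsLocalRing S]

theorem constantCoeff_mem_of_mem {F : S⟦X⟧} (hF : F ∈ maximalIdeal S⟦X⟧) :
    constantCoeff F ∈ maximalIdeal S := by
  rw [mem_maximalIdeal, mem_nonunits_iff] at hF ⊢
  intro h
  exact hF (PowerSeries.isUnit_iff_constantCoeff.2 h)

theorem mem_of_constantCoeff_mem {F : S⟦X⟧} (hF : constantCoeff F ∈ maximalIdeal S) :
    F ∈ maximalIdeal S⟦X⟧ := by
  rw [mem_maximalIdeal, mem_nonunits_iff] at hF ⊢
  intro h
  exact hF (PowerSeries.isUnit_iff_constantCoeff.1 h)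

theorem X_mem_maximalIdeal : (X : S⟦X⟧) ∈ maximalIdeal S⟦X⟧ :=
  mem_of_constantCoeff_mem (by simp)

theorem C_mem_maximalIdeal {a : S} (ha : a ∈ maximalIdeal S) : (C a : S⟦X⟧) ∈ maximalIdeal S⟦X⟧ :=
  mem_of_constantCoeff_mem (by simpa using ha)

theorem maximalIdeal_powerSeries :
    maximalIdeal S⟦X⟧ = (maximalIdeal S).map (C : S →+* S⟦X⟧) ⊔ Ideal.span {(X : S⟦X⟧)} := by
  apply le_antisymm
  · intro F hF
    have h0 := constantCoeff_mem_of_mem hF
    have h1 : F = C (constantCoeff F) + (F - C (constantCoeff F)) := by ring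
    rw [h1]
    refine Submodule.add_mem_sup (Ideal.mem_map_of_mem _ h0) ?_
    rw [Ideal.mem_span_singleton, PowerSeries.X_dvd_iff]
    simp
  · refine sup_le ?_ ?_
    · rw [Ideal.map_le_iff_le_comap]
      intro a ha
      exact C_mem_maximalIdeal ha
    · rw [Ideal.span_singleton_le_iff_mem]
      exact X_mem_maximalIdeal

theorem ofList_powerSeries {ys : List S} (h : Ideal.ofList ys = maximalIdeal S) :
    Ideal.ofList (ys.map (C : S →+* S⟦X⟧) ++ [(X : S⟦X⟧)]) = maximalIdeal S⟦X⟧ := by
  rw [Ideal.ofList_append, ← Ideal.map_ofList, h, Ideal.ofList_singleton, maximalIdeal_powerSeries]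

/-- Power series whose `k`-th coefficient is in `𝔪 ^ (m - k)`. -/
def coeffIdeal (S : Type*) [CommRing S] [IsLocalRing S] (m : ℕ) : Ideal S⟦X⟧ where
  carrier := {F | ∀ k, coeff k F ∈ maximalIdeal S ^ (m - k)}
  add_mem' := by
    intro a b ha hb k
    rw [map_add]
    exact Ideal.add_mem _ (ha k) (hb k)
  zero_mem' := by
    intro k
    rw [map_zero]
    exact Ideal.zero_mem _
  smul_mem' := by
    intro c F hF k
    rw [smul_eq_mul, PowerSeries.coeff_mul]
    refine Ideal.sum_mem _ fun p hp => ?_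
    have hp' := Finset.HasAntidiagonal.mem_antidiagonal.1 hp
    refine Ideal.mul_mem_left _ _ (Ideal.pow_le_pow_right ?_ (hF p.2))
    omega

theorem mem_coeffIdeal {m : ℕ} {F : S⟦X⟧} :
    F ∈ coeffIdeal S m ↔ ∀ k, coeff k F ∈ maximalIdeal S ^ (m - k) := Iff.rfl

theorem pow_le_coeffIdeal (m : ℕ) : maximalIdeal S⟦X⟧ ^ m ≤ coeffIdeal S m := by
  induction m with
  | zero =>
    intro F _
    rw [mem_coeffIdeal]
    intro k
    simp
  | succ m ih =>
    rw [pow_succ, Ideal.mul_le]
    intro F hF G hG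
    rw [mem_coeffIdeal]
    intro k
    rw [PowerSeries.coeff_mul]
    refine Ideal.sum_mem _ fun p hp => ?_
    have hp' := Finset.HasAntidiagonal.mem_antidiagonal.1 hp
    have hF' := ih hF
    rw [mem_coeffIdeal] at hF'
    by_cases h0 : p.2 = 0
    · have hG' : coeff p.2 G ∈ maximalIdeal S := by
        rw [h0, PowerSeries.coeff_zero_eq_constantCoeff_apply]
        exact constantCoeff_mem_of_mem hG
      have := Ideal.mul_mem_mul (hF' p.1) hG'
      rw [← pow_succ] at this
      refine Ideal.pow_le_pow_right ?_ this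
      omega
    · refine Ideal.mul_mem_right _ _ (Ideal.pow_le_pow_right ?_ (hF' p.1))
      omega

theorem C_pow_mem {a : S} {m : ℕ} (ha : a ∈ maximalIdeal S ^ m) :
    (C a : S⟦X⟧) ∈ maximalIdeal S⟦X⟧ ^ m := by
  have h1 : ((maximalIdeal S) ^ m).map (C : S →+* S⟦X⟧) ≤ maximalIdeal S⟦X⟧ ^ m := by
    rw [Ideal.map_pow]
    refine Ideal.pow_right_mono ?_ m
    rw [maximalIdeal_powerSeries]
    exact le_sup_left
  exact h1 (Ideal.mem_map_of_mem _ ha)

theorem mem_pow_of_coeff {m : ℕ} {F : S⟦X⟧}
    (hF : ∀ k, k < m → coeff k F ∈ maximalIdeal S ^ (m - k)) : F ∈ maximalIdeal S⟦X⟧ ^ m := by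
  have h1 : F = (↑(trunc m F) : S⟦X⟧) + (F - ↑(trunc m F)) := by ring
  rw [h1]
  refine Ideal.add_mem _ ?_ ?_
  · have h2 : ((trunc m F : Polynomial S) : S⟦X⟧) =
        ∑ k ∈ Finset.range m, (X : S⟦X⟧) ^ k * C (coeff k F) := by
      ext n
      rw [Polynomial.coeff_coe, PowerSeries.coeff_trunc, map_sum]
      have h3 : ∀ k ∈ Finset.range m, coeff n ((X : S⟦X⟧) ^ k * C (coeff k F)) =
          if n = k then coeff k F else 0 := by
        intro k _
        rw [PowerSeries.coeff_mul_C, PowerSeries.coeff_X_pow]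
        split_ifs <;> simp
      rw [Finset.sum_congr rfl h3, Finset.sum_ite_eq]
      simp only [Finset.mem_range]
    rw [h2]
    refine Ideal.sum_mem _ fun k hk => ?_
    have hk' := Finset.mem_range.1 hk
    have h3 : (X : S⟦X⟧) ^ k ∈ maximalIdeal S⟦X⟧ ^ k := Ideal.pow_mem_pow X_mem_maximalIdeal k
    have h4 := Ideal.mul_mem_mul h3 (C_pow_mem (hF k hk'))
    rw [← pow_add] at h4
    refine Ideal.pow_le_pow_right ?_ h4
    omega
  · have h2 : (X : S⟦X⟧) ^ m ∣ F - ↑(trunc m F) := by
      rw [PowerSeries.X_pow_dvd_iff]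
      intro k hk
      rw [map_sub, Polynomial.coeff_coe, PowerSeries.coeff_trunc, if_pos hk, sub_self]
    obtain ⟨G, hG⟩ := h2
    rw [hG]
    exact Ideal.mul_mem_right _ _ (Ideal.pow_mem_pow X_mem_maximalIdeal m)

theorem isPrecomplete_powerSeries [IsPrecomplete (maximalIdeal S) S] :
    IsPrecomplete (maximalIdeal S⟦X⟧) S⟦X⟧ := by
  constructor
  intro f hf
  -- coefficientwise Cauchy
  have hc : ∀ k m n : ℕ, m ≤ n →
      coeff k (f m) - coeff k (f n) ∈ maximalIdeal S ^ (m - k) := by
    intro k m n hmn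
    have h1 := hf hmn
    rw [SModEq.sub_mem, smul_eq_mul, Ideal.mul_top] at h1
    have h2 := pow_le_coeffIdeal m h1
    rw [mem_coeffIdeal] at h2
    have h3 := h2 k
    rwa [map_sub] at h3
  have hlim : ∀ k : ℕ, ∃ L : S, ∀ m : ℕ, coeff k (f (m + k)) - L ∈ maximalIdeal S ^ m := by
    intro k
    obtain ⟨L, hL⟩ := IsPrecomplete.prec (I := maximalIdeal S) (M := S) inferInstance
      (f := fun m => coeff k (f (m + k))) (by
        intro m n hmn
        rw [SModEq.sub_mem, smul_eq_mul, Ideal.mul_top]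
        have h1 := hc k (m + k) (n + k) (by omega)
        rwa [Nat.add_sub_cancel] at h1)
    refine ⟨L, fun m => ?_⟩
    have h1 := hL m
    rwa [SModEq.sub_mem, smul_eq_mul, Ideal.mul_top] at h1
  choose L hL using hlim
  refine ⟨PowerSeries.mk L, fun n => ?_⟩
  rw [SModEq.sub_mem, smul_eq_mul, Ideal.mul_top]
  apply mem_pow_of_coeff
  intro k hk
  rw [map_sub, PowerSeries.coeff_mk]
  have h1 := hL k (n - k)
  rwa [Nat.sub_add_cancel hk.le] at h1

theorem finite_residueField_powerSeries [Finite (ResidueField S)] :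
    Finite (ResidueField S⟦X⟧) := by
  have : IsLocalHom (C : S →+* S⟦X⟧) := by
    constructor
    intro a ha
    simpa using PowerSeries.isUnit_iff_constantCoeff.1 ha
  have h : Function.Surjective
      (IsLocalRing.ResidueField.map (C : S →+* S⟦X⟧) : ResidueField S →+* ResidueField S⟦X⟧) := by
    intro x
    obtain ⟨F, rfl⟩ := IsLocalRing.residue_surjective x
    refine ⟨residue S (constantCoeff F), ?_⟩
    rw [IsLocalRing.ResidueField.map_residue]
    rw [← sub_eq_zero, ← map_sub, IsLocalRing.residue_eq_zero_iff]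
    apply mem_of_constantCoeff_mem
    simp
  exact Finite.of_surjective _ h

end

section

universe u v

variable {S : Type u} [CommRing S] {R : Type v} [CommRing R] [IsLocalRing R]

theorem exists_eval (hR : IsAdicComplete (maximalIdeal R) R) (φ : S →+* R) {x : R}
    (hx : x ∈ maximalIdeal R) :
    ∃ ψ : S⟦X⟧ →+* R, (∀ a, ψ (C a) = φ a) ∧ ψ X = x := by
  let : UniformSpace S := ⊥
  have : DiscreteTopology S := ⟨rfl⟩
  let : TopologicalSpace R := (maximalIdeal R).adicTopology
  have htr : IsTopologicalRing R := inferInstance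
  let : UniformSpace R := IsTopologicalAddGroup.rightUniformSpace R
  have : IsUniformAddGroup R := isUniformAddGroup_of_addCommGroup
  have hadic : IsAdic (maximalIdeal R) := rfl
  obtain ⟨h1, h2⟩ := hadic.isAdicComplete_iff.1 hR
  have := h1
  have := h2
  have : IsLinearTopology R R := Ideal.isLinearTopology (maximalIdeal R)
  have hφ : Continuous φ := continuous_of_discreteTopology
  have hx' : PowerSeries.HasEval x := by
    rw [PowerSeries.hasEval_def]
    rw [IsTopologicallyNilpotent,
      (maximalIdeal R).hasBasis_nhds_zero_adic.tendsto_right_iff]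
    intro n _
    rw [Filter.eventually_atTop]
    exact ⟨n, fun m hm => Ideal.pow_le_pow_right hm (Ideal.pow_mem_pow hx m)⟩
  refine ⟨PowerSeries.eval₂Hom hφ hx', fun a => ?_, ?_⟩
  · rw [PowerSeries.coe_eval₂Hom, PowerSeries.eval₂_C]
  · rw [PowerSeries.coe_eval₂Hom, PowerSeries.eval₂_X]

end

end Pool.Agent.W_cbb711
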