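import Mathlib

set_option autoImplicit false

universe u

open IsLocalRing Pointwise

namespace Pool.Agent.W_cbb711

lemma isPrecomplete_of_finite {S : Type*} [CommRing S] (I : Ideal S) [IsPrecomplete I S]
    (M : Type*) [AddCommGroup M] [Module S M] [Module.Finite S M] : IsPrecomplete I M := by
  rw [← AdicCompletion.of_surjective_iff]
  intro x
  obtain ⟨t, rfl⟩ := AdicCompletion.ofTensorProduct_surjective_of_finite I M x
  induction t using TensorProduct.induction_on with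
  | zero => exact ⟨0, by simp⟩
  | tmul a m =>
    obtain ⟨s, rfl⟩ := AdicCompletion.of_surjective I S a
    refine ⟨s • m, ?_⟩
    rw [AdicCompletion.ofTensorProduct_tmul]
    ext n
    rw [AdicCompletion.smul_eval]
    rfl
  | add a b ha hb =>
    obtain ⟨x, hx⟩ := ha
    obtain ⟨y, hy⟩ := hb
    exact ⟨x + y, by rw [map_add, hx, hy, map_add]⟩

section

variable {S : Type*} [CommRing S] [IsNoetherianRing S] (I : Ideal S)
variable {A B C : Type*} [AddCommGroup A] [Module S A] [Module.Finite S A]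
  [AddCommGroup B] [Module S B] [Module.Finite S B] [AddCommGroup C] [Module S C]
  [Module.Finite S C]

omit [IsNoetherianRing S] [Module.Finite S A] [Module.Finite S B] in
lemma map_mem_smul_top (δ : A →ₗ[S] B) {J : Ideal S} {x : A}
    (hx : x ∈ J • (⊤ : Submodule S A)) : δ x ∈ J • (⊤ : Submodule S B) := by
  have h1 : δ x ∈ Submodule.map δ (J • ⊤) := Submodule.mem_map_of_mem hx
  rw [Submodule.map_smul''] at h1
  exact Submodule.smul_mono le_rfl le_top h1

omit [IsNoetherianRing S] [Module.Finite S A] in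
lemma pow_smul_top_anti {n m : ℕ} (h : n ≤ m) :
    I ^ m • (⊤ : Submodule S A) ≤ I ^ n • (⊤ : Submodule S A) :=
  Submodule.smul_mono_left (Ideal.pow_le_pow_right h)

omit [Module.Finite S A] in
lemma artinRees (δ : A →ₗ[S] B) : ∃ c, ∀ c' ≥ c, ∀ n, ∀ x, δ x ∈ I ^ (n + c') • (⊤ : Submodule S B) →
    ∃ y ∈ I ^ n • (⊤ : Submodule S A), δ y = δ x := by
  obtain ⟨k, hk⟩ := Ideal.exists_pow_inf_eq_pow_smul I (LinearMap.range δ)
  refine ⟨k, fun c' hc' n x hx => ?_⟩
  have h1 : δ x ∈ I ^ (n + k) • ⊤ ⊓ LinearMap.range δ :=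
    ⟨pow_smul_top_anti I (by omega) hx, ⟨x, rfl⟩⟩
  rw [hk (n + k) (by omega), Nat.add_sub_cancel] at h1
  have h2 : I ^ n • (I ^ k • ⊤ ⊓ LinearMap.range δ) ≤ Submodule.map δ (I ^ n • ⊤) := by
    rw [Submodule.map_smul'', Submodule.map_top]
    exact Submodule.smul_mono le_rfl inf_le_right
  obtain ⟨y, hy, hyx⟩ := h2 h1
  exact ⟨y, hy, hyx⟩

omit [IsNoetherianRing S] [Module.Finite S A] [Module.Finite S B] in
lemma diff_mem (δ δ' : A →ₗ[S] B) {N : ℕ} (h : ∀ a, δ' a - δ a ∈ I ^ N • (⊤ : Submodule S B))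
    {j : ℕ} {x : A} (hx : x ∈ I ^ j • (⊤ : Submodule S A)) :
    δ' x - δ x ∈ I ^ (j + N) • (⊤ : Submodule S B) := by
  have h1 : (δ' - δ) x ∈ Submodule.map (δ' - δ) (I ^ j • ⊤) := Submodule.mem_map_of_mem hx
  rw [Submodule.map_smul''] at h1
  have h2 : Submodule.map (δ' - δ) ⊤ ≤ I ^ N • ⊤ := by
    rintro _ ⟨a, -, rfl⟩
    exact h a
  have h3 := Submodule.smul_mono (le_refl (I ^ j)) h2 h1
  rwa [← Submodule.mul_smul, ← pow_add] at h3

/-- Stability of exactness under small perturbations. -/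
theorem perturb [IsLocalRing S] [IsPrecomplete (maximalIdeal S) S]
    (α : A →ₗ[S] B) (β : B →ₗ[S] C) (hex : ∀ b, β b = 0 → ∃ a, α a = b) :
    ∃ N : ℕ, ∀ (α' : A →ₗ[S] B) (β' : B →ₗ[S] C),
      (∀ a, α' a - α a ∈ (maximalIdeal S) ^ N • (⊤ : Submodule S B)) →
      (∀ b, β' b - β b ∈ (maximalIdeal S) ^ N • (⊤ : Submodule S C)) →
      (∀ a, β' (α' a) = 0) →
      ∀ b ∈ (maximalIdeal S) ^ N • (⊤ : Submodule S B), β' b = 0 →
        ∃ a ∈ maximalIdeal S • (⊤ : Submodule S A), α' a = b := by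
  obtain ⟨c1, hc1⟩ := artinRees (maximalIdeal S) α
  obtain ⟨c2, hc2⟩ := artinRees (maximalIdeal S) β
  set c := max c1 c2 with hc
  set 𝔪 := maximalIdeal S with h𝔪
  have hα := hc1 c (le_max_left _ _)
  have hβ := hc2 c (le_max_right _ _)
  refine ⟨c + 1, ?_⟩
  intro α' β' hαα hββ hcomp b0 hb0 hb00
  have step : ∀ (j : ℕ) (b : B), b ∈ 𝔪 ^ (c + 1 + j) • (⊤ : Submodule S B) → β' b = 0 →
      ∃ a ∈ 𝔪 ^ (1 + j) • (⊤ : Submodule S A), b - α' a ∈ 𝔪 ^ (c + 1 + (j + 1)) • (⊤ : Submodule S B) := by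
    intro j b hb hb'
    have h1 : β b ∈ 𝔪 ^ ((c + 2 + j) + c) • (⊤ : Submodule S C) := by
      have h2 := diff_mem 𝔪 β β' hββ hb
      rw [hb', zero_sub] at h2
      have h3 := Submodule.neg_mem _ h2
      rw [neg_neg] at h3
      have : c + 1 + j + (c + 1) = (c + 2 + j) + c := by ring
      rwa [this] at h3
    obtain ⟨b1, hb1, hb1'⟩ := hβ _ _ h1
    obtain ⟨a0, ha0⟩ := hex (b - b1) (by rw [map_sub, hb1', sub_self])
    have h4 : α a0 ∈ 𝔪 ^ ((1 + j) + c) • (⊤ : Submodule S B) := by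
      rw [ha0]
      refine Submodule.sub_mem _ ?_ ?_
      · have : (1 + j) + c = c + 1 + j := by ring
        rw [this]; exact hb
      · exact pow_smul_top_anti 𝔪 (by omega) hb1
    obtain ⟨a, ha, haa⟩ := hα _ _ h4
    refine ⟨a, ha, ?_⟩
    have h5 := diff_mem 𝔪 α α' hαα ha
    have h6 : b - α' a = b1 - (α' a - α a) := by
      rw [haa, ha0]; abel
    rw [h6]
    refine Submodule.sub_mem _ ?_ ?_
    · exact pow_smul_top_anti 𝔪 (by omega) hb1
    · exact pow_smul_top_anti 𝔪 (by omega) h5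
  -- iterate
  choose! f hf1 hf2 using step
  let st : ℕ → A × B := fun n => Nat.rec (0, b0) (fun j p => (p.1 + f j p.2, p.2 - α' (f j p.2))) n
  have hst0 : st 0 = (0, b0) := rfl
  have hstS : ∀ j, st (j + 1) = ((st j).1 + f j (st j).2, (st j).2 - α' (f j (st j).2)) := fun j => rfl
  have hinv : ∀ j, (st j).2 ∈ 𝔪 ^ (c + 1 + j) • (⊤ : Submodule S B) ∧ β' (st j).2 = 0 ∧
      α' (st j).1 = b0 - (st j).2 := by
    intro j
    induction j with
    | zero => rw [hst0]; exact ⟨hb0, hb00, by simp⟩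
    | succ j ih =>
      obtain ⟨h1, h2, h3⟩ := ih
      rw [hstS]
      refine ⟨hf2 j _ h1 h2, ?_, ?_⟩
      · rw [map_sub, h2, hcomp, sub_zero]
      · change α' ((st j).1 + f j (st j).2) = b0 - ((st j).2 - α' (f j (st j).2))
        rw [map_add, h3]; abel
  have hdiff : ∀ j, (st (j + 1)).1 - (st j).1 ∈ 𝔪 ^ (1 + j) • (⊤ : Submodule S A) := by
    intro j
    rw [hstS]
    simp only [add_sub_cancel_left]
    exact hf1 j _ (hinv j).1 (hinv j).2.1
  have hcauchy : ∀ {m n : ℕ}, m ≤ n → (st m).1 ≡ (st n).1 [SMOD (𝔪 ^ m • ⊤ : Submodule S A)] := by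
    intro m n hmn
    induction n, hmn using Nat.le_induction with
    | base => rfl
    | succ n hmn ih =>
      refine ih.trans ?_
      rw [SModEq.sub_mem, ← neg_sub]
      refine Submodule.neg_mem _ (pow_smul_top_anti 𝔪 (by omega) (hdiff n))
  have hprec : IsPrecomplete 𝔪 A := isPrecomplete_of_finite 𝔪 A
  obtain ⟨L, hL⟩ := hprec.prec hcauchy
  refine ⟨L, ?_, ?_⟩
  · have h1 := (hL 1).symm
    rw [SModEq.sub_mem, pow_one] at h1
    have h2 : (st 1).1 ∈ 𝔪 • (⊤ : Submodule S A) := by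
      have := hdiff 0
      rw [hst0] at this
      simpa using this
    have := Submodule.add_mem _ h1 h2
    rwa [sub_add_cancel] at this
  · have hhaus : IsHausdorff 𝔪 B := inferInstance
    rw [← sub_eq_zero]
    apply hhaus.haus
    intro n
    rw [SModEq.zero]
    have h1 := (hL n).symm
    rw [SModEq.sub_mem] at h1
    have h2 := map_mem_smul_top α' h1
    have h3 := (hinv n).2.2
    have h4 : α' L - b0 = α' (L - (st n).1) - (st n).2 := by
      rw [map_sub, h3]; abel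
    rw [h4]
    exact Submodule.sub_mem _ h2 (pow_smul_top_anti 𝔪 (by omega) (hinv n).1)

end

end Pool.Agent.W_cbb711
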