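import Pool.Agent.W_cbb711.Perturb

set_option autoImplicit false

open IsLocalRing Pointwise

namespace Pool.Agent.W_cbb711

section

variable {S : Type*} [CommRing S] {R : Type*} [CommRing R] [Algebra S R]
  {F : Type*} [AddCommGroup F] [Module S F]

/-- first Hochschild differential with values in `Hom (F, φ) (F, φ')` -/
def dZero (φ φ' : R →ₐ[S] Module.End S F) :
    Module.End S F →ₗ[S] (R →ₗ[S] Module.End S F) where
  toFun g :=
    { toFun := fun a => φ' a * g - g * φ a
      map_add' := fun a b => by rw [map_add, map_add, add_mul, mul_add]; abel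
      map_smul' := fun s a => by
        rw [map_smul, map_smul, RingHom.id_apply, smul_mul_assoc, mul_smul_comm, smul_sub] }
  map_add' g g' := by
    ext a : 1
    simp only [LinearMap.coe_mk, AddHom.coe_mk, LinearMap.add_apply]
    rw [mul_add, add_mul]; abel
  map_smul' s g := by
    ext a : 1
    simp only [LinearMap.coe_mk, AddHom.coe_mk, LinearMap.smul_apply, RingHom.id_apply]
    rw [smul_mul_assoc, mul_smul_comm, smul_sub]

@[simp] lemma dZero_apply (φ φ' : R →ₐ[S] Module.End S F) (g : Module.End S F) (a : R) :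
    dZero φ φ' g a = φ' a * g - g * φ a := rfl

/-- second Hochschild differential -/
def dOne (φ φ' : R →ₐ[S] Module.End S F) :
    (R →ₗ[S] Module.End S F) →ₗ[S] (R →ₗ[S] R →ₗ[S] Module.End S F) where
  toFun h := LinearMap.mk₂ S (fun a b => φ' a * h b - h (a * b) + h a * φ b)
    (fun a a' b => by
      rw [map_add, add_mul, add_mul, map_add, map_add, add_mul]; abel)
    (fun s a b => by
      rw [map_smul, smul_mul_assoc, smul_mul_assoc, map_smul, map_smul, smul_mul_assoc,
        smul_add, smul_sub])
    (fun a b b' => by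
      rw [map_add, mul_add, mul_add, map_add, map_add, mul_add]; abel)
    (fun s a b => by
      rw [map_smul, mul_smul_comm, mul_smul_comm, map_smul, map_smul, mul_smul_comm,
        smul_add, smul_sub])
  map_add' h h' := by
    ext a b : 2
    simp only [LinearMap.mk₂_apply, LinearMap.add_apply]
    rw [mul_add, add_mul]; abel
  map_smul' s h := by
    ext a b : 2
    simp only [LinearMap.mk₂_apply, LinearMap.smul_apply, RingHom.id_apply]
    rw [smul_mul_assoc, mul_smul_comm, smul_add, smul_sub]

@[simp] lemma dOne_apply (φ φ' : R →ₐ[S] Module.End S F) (h : R →ₗ[S] Module.End S F) (a b : R) :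
    dOne φ φ' h a b = φ' a * h b - h (a * b) + h a * φ b := rfl

lemma dOne_dZero (φ φ' : R →ₐ[S] Module.End S F) (g : Module.End S F) :
    dOne φ φ' (dZero φ φ' g) = 0 := by
  ext a b : 2
  simp only [dOne_apply, dZero_apply, LinearMap.zero_apply]
  rw [map_mul, map_mul]
  noncomm_ring

lemma mem_smul_top_of_forall [Module.Finite S R] [Module.Free S R] {M : Type*} [AddCommGroup M]
    [Module S M] (J : Ideal S) (h : R →ₗ[S] M) (hh : ∀ a, h a ∈ J • (⊤ : Submodule S M)) :
    h ∈ J • (⊤ : Submodule S (R →ₗ[S] M)) := by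
  classical
  let b := Module.Free.chooseBasis S R
  have h1 : h = ∑ j, LinearMap.smulRightₗ (b.coord j) (h (b j)) := by
    refine b.ext fun i => ?_
    rw [LinearMap.sum_apply]
    rw [Finset.sum_eq_single i]
    · simp
    · intro j _ hj
      simp [Finsupp.single_eq_of_ne hj]
    · simp
  rw [h1]
  refine Submodule.sum_mem _ fun j _ => ?_
  exact map_mem_smul_top _ (hh _)

end

theorem determinacy {S : Type*} [CommRing S] [IsNoetherianRing S] [IsLocalRing S]
    [IsPrecomplete (maximalIdeal S) S] {R : Type*} [CommRing R] [Algebra S R]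
    [Module.Finite S R] [Module.Free S R]
    {F : Type*} [AddCommGroup F] [Module S F] [Module.Finite S F] [Module.Free S F]
    (φ : R →ₐ[S] Module.End S F)
    (hH : ∀ h : R →ₗ[S] Module.End S F, (∀ a b, h (a * b) = φ a * h b + h a * φ b) →
      ∃ g : Module.End S F, ∀ a, h a = φ a * g - g * φ a) :
    ∃ N, ∀ φ' : R →ₐ[S] Module.End S F,
      (∀ a, φ' a - φ a ∈ (maximalIdeal S) ^ N • (⊤ : Submodule S (Module.End S F))) →
      ∃ θ : F ≃ₗ[S] F, ∀ a v, θ (φ a v) = φ' a (θ v) := by
  obtain ⟨N, hN⟩ := perturb (A := Module.End S F) (B := R →ₗ[S] Module.End S F)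
    (C := R →ₗ[S] R →ₗ[S] Module.End S F) (dZero φ φ) (dOne φ φ) (by
    intro h hh
    obtain ⟨g, hg⟩ := hH h (by
      intro a b
      have h1 : dOne φ φ h a b = 0 := by rw [hh]; rfl
      rw [dOne_apply] at h1
      have h2 : φ a * h b + h a * φ b - h (a * b) = 0 := by rw [← h1]; abel
      exact (sub_eq_zero.mp h2).symm)
    refine ⟨g, ?_⟩
    ext a : 1
    rw [dZero_apply]; exact (hg a).symm)
  refine ⟨N, fun φ' hφ' => ?_⟩
  have hmulmem : ∀ (x y : Module.End S F),
      x ∈ (maximalIdeal S) ^ N • (⊤ : Submodule S (Module.End S F)) →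
      x * y ∈ (maximalIdeal S) ^ N • (⊤ : Submodule S (Module.End S F)) := fun x y hx =>
    map_mem_smul_top (LinearMap.mulRight S y) hx
  obtain ⟨g, hg, hgz⟩ := hN (dZero φ φ') (dOne φ φ') (by
      intro g
      apply mem_smul_top_of_forall
      intro a
      simp only [LinearMap.sub_apply, dZero_apply]
      have : φ' a * g - g * φ a - (φ a * g - g * φ a) = (φ' a - φ a) * g := by noncomm_ring
      rw [this]
      exact hmulmem _ _ (hφ' a)) (by
      intro h
      apply mem_smul_top_of_forall
      intro a
      apply mem_smul_top_of_forall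
      intro b
      simp only [LinearMap.sub_apply, dOne_apply]
      have : φ' a * h b - h (a * b) + h a * φ b - (φ a * h b - h (a * b) + h a * φ b) =
        (φ' a - φ a) * h b := by noncomm_ring
      rw [this]
      exact hmulmem _ _ (hφ' a)) (dOne_dZero φ φ') (dZero φ φ' 1) (by
      apply mem_smul_top_of_forall
      intro a
      rw [dZero_apply, mul_one, one_mul]
      exact hφ' a) (dOne_dZero φ φ' 1)
  -- the intertwiner `1 - g`
  set θ : Module.End S F := 1 - g with hθ
  have hint : ∀ a, φ' a * θ = θ * φ a := by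
    intro a
    have h1 : dZero φ φ' θ a = 0 := by
      rw [hθ, map_sub, hgz, sub_self]; rfl
    rw [dZero_apply] at h1
    exact sub_eq_zero.mp h1
  have hgv : ∀ v, g v ∈ (maximalIdeal S) • (⊤ : Submodule S F) := by
    intro v
    exact map_mem_smul_top (LinearMap.applyₗ v) hg
  have hsurj : Function.Surjective θ := by
    rw [← LinearMap.range_eq_top, eq_top_iff]
    apply Submodule.le_of_le_smul_of_le_jacobson_bot (I := maximalIdeal S)
      (Module.finite_def.mp inferInstance) (IsLocalRing.maximalIdeal_le_jacobson _)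
    intro v _
    have h1 : v = θ v + g v := by
      rw [hθ, LinearMap.sub_apply, Module.End.one_apply, sub_add_cancel]
    rw [h1]
    exact Submodule.add_mem_sup ⟨v, rfl⟩ (hgv v)
  have hbij : Function.Bijective θ :=
    ⟨IsNoetherian.injective_of_surjective_endomorphism θ hsurj, hsurj⟩
  refine ⟨LinearEquiv.ofBijective θ hbij, fun a v => ?_⟩
  have := congrArg (fun f : Module.End S F => f v) (hint a)
  simp only [Module.End.mul_apply] at this
  simpa using this.symm

end Pool.Agent.W_cbb711
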