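import Pool.Agent.W_cbb711.Rigid
import Pool.Agent.W_cbb711.Determinacy

set_option autoImplicit false

universe u

open IsLocalRing RingTheory.Sequence Ideal Pointwise

namespace Pool.Agent.W_cbb711

/-- `S → R` is finite and the maximal ideal of `S` is generated by a sequence of length `d` which
is regular on `R`. -/
structure Normalisation (S R : Type u) [CommRing S] [IsLocalRing S] [CommRing R] [Algebra S R]
    (d : ℕ) : Prop where
  finite : Module.Finite S R
  exists_seq : ∃ xs : List S, xs.length = d ∧ Ideal.ofList xs = maximalIdeal S ∧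
    IsRegular R (xs.map (algebraMap S R))

section

variable {S R : Type u} [CommRing S] [IsLocalRing S] [IsNoetherianRing S] [CommRing R]
  [IsLocalRing R] [IsNoetherianRing R] [Algebra S R] {d : ℕ}

omit [IsNoetherianRing R] [IsLocalRing R] in
lemma Normalisation.free (h : Normalisation S R d) : Module.Free S R := by
  obtain ⟨xs, -, hspan, hreg⟩ := h.exists_seq
  have := h.finite
  refine free_of_isWeaklyRegular _ S R xs rfl hspan ?_
  exact (isWeaklyRegular_map_algebraMap_iff R R xs).mp hreg.1

omit [IsNoetherianRing S] in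
lemma Normalisation.isRegular (_ : Normalisation S R d) (hd : ringKrullDim R = d)
    {xs : List S} (_ : xs.length = d) (hreg : IsRegular R (xs.map (algebraMap S R)))
    (M : Type u) [AddCommGroup M] [Module R M] [Nontrivial M] [Module.Finite R M]
    (hM : DepthGE R M d) : IsRegular M (xs.map (algebraMap S R)) := by
  refine isRegular_of_dim_le _ ?_ d ⊥ bot_le M hM bot_le ?_
  · intro r hr
    by_contra hcon
    have hu : IsUnit r := by
      by_contra hnu
      exact hcon hnu
    have hle : Ideal.ofList (xs.map (algebraMap S R)) = ⊤ :=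
      Ideal.eq_top_of_isUnit_mem _ (Ideal.subset_span hr) hu
    have := hreg.2
    rw [hle] at this
    simp at this
  · have h1 := ringKrullDim_add_length_eq_ringKrullDim_of_isRegular _ hreg
    rw [hd] at h1
    rw [bot_sup_eq, ← h1]

lemma Normalisation.free_of_depth (h : Normalisation S R d) (hd : ringKrullDim R = d)
    (M : Type u) [AddCommGroup M] [Module R M] [Nontrivial M] [Module.Finite R M]
    [Module S M] [IsScalarTower S R M]
    (hM : DepthGE R M d) : Module.Free S M := by
  obtain ⟨xs, hlen, hspan, hreg⟩ := h.exists_seq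
  have := h.finite
  have : Module.Finite S M := Module.Finite.trans R M
  refine free_of_isWeaklyRegular _ S M xs rfl hspan ?_
  exact (isWeaklyRegular_map_algebraMap_iff R M xs).mp (h.isRegular hd hlen hreg M hM).1

omit [IsNoetherianRing R] in
lemma Normalisation.injective (h : Normalisation S R d) : Function.Injective (algebraMap S R) := by
  have := h.free
  have : FaithfulSMul S R := inferInstance
  exact FaithfulSMul.algebraMap_injective S R

variable [IsDomain R]

omit [IsNoetherianRing R] in
lemma Normalisation.isDomain (h : Normalisation S R d) : IsDomain S :=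
  h.injective.isDomain (algebraMap S R)

/-- A maximal Cohen-Macaulay nonzero ideal is isomorphic to `R` as an `S`-module. -/
lemma Normalisation.exists_equiv (h : Normalisation S R d) (hd : ringKrullDim R = d)
    (I : Ideal R) (hI : I ≠ ⊥) (hIM : DepthGE R I d) : Nonempty (I ≃ₗ[S] R) := by
  have := h.isDomain
  have := h.finite
  have := h.free
  have hInt : Nontrivial I := by
    rw [Submodule.nontrivial_iff_ne_bot]; exact hI
  have : Module.Free S I := h.free_of_depth hd I hIM
  have : Module.Finite S I := Module.Finite.trans R I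
  have h1 : Module.finrank S I ≤ Module.finrank S R :=
    LinearMap.finrank_le_finrank_of_injective (f := (Submodule.subtype I).restrictScalars S)
      Subtype.val_injective
  obtain ⟨z, hz, hz0⟩ := Submodule.exists_mem_ne_zero_of_ne_bot hI
  have h2 : Module.finrank S R ≤ Module.finrank S I := by
    refine LinearMap.finrank_le_finrank_of_injective
      (f := (LinearMap.toSpanSingleton R I ⟨z, hz⟩).restrictScalars S) ?_
    intro a b hab
    have h3 := congrArg Subtype.val hab
    exact mul_right_cancel₀ hz0 h3
  exact ⟨LinearEquiv.ofFinrankEq I R (le_antisymm h1 h2)⟩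

omit [IsNoetherianRing R] [IsDomain R] in
lemma mem_maximalIdeal_of_isRegular {xs : List R} (hreg : IsRegular R xs) :
    ∀ r ∈ xs, r ∈ maximalIdeal R := by
  intro r hr
  by_contra hcon
  have hu : IsUnit r := by
    by_contra hnu
    exact hcon hnu
  have hle : Ideal.ofList xs = ⊤ :=
    Ideal.eq_top_of_isUnit_mem _ (Ideal.subset_span hr) hu
  have := hreg.2
  rw [hle] at this
  simp at this

/-- A module over `R` which is isomorphic to `R` over `S` is a maximal Cohen-Macaulay ideal. -/
lemma Normalisation.exists_ideal (h : Normalisation S R d) (L : Type u) [AddCommGroup L]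
    [Module R L] [Module S L] [IsScalarTower S R L] (e : L ≃ₗ[S] R) :
    ∃ I : Ideal R, I ≠ ⊥ ∧ DepthGE R I d ∧ Nonempty (L ≃ₗ[R] I) := by
  classical
  have := h.isDomain
  have := h.finite
  have := h.free
  have hinj := h.injective
  have : Algebra.IsIntegral S R := Algebra.IsIntegral.of_finite S R
  have hfinL : Module.Finite S L := Module.Finite.equiv e.symm
  have hsmul : ∀ (s : S) (l : L), s • l = (algebraMap S R s) • l := fun s l =>
    (algebraMap_smul R s l).symm
  have htorS : ∀ (s : S), s ≠ 0 → ∀ l : L, s • l = 0 → l = 0 := by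
    intro s hs l hl
    have h1 : s • e l = 0 := by rw [← map_smul, hl, map_zero]
    rw [Algebra.smul_def] at h1
    have h2 : algebraMap S R s ≠ 0 := fun h0 => hs (hinj (by rw [h0, map_zero]))
    have h3 := (mul_eq_zero.mp h1).resolve_left h2
    exact e.injective (by rw [h3, map_zero])
  have htor : ∀ (r : R), r ≠ 0 → ∀ l : L, r • l = 0 → l = 0 := by
    intro r hr l hl
    have h1 := Ideal.comap_ne_bot_of_integral_mem (R := S) (I := Ideal.span {r}) hr
      (Ideal.mem_span_singleton_self r) (Algebra.IsIntegral.isIntegral r)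
    obtain ⟨s, hs, hs0⟩ := Submodule.exists_mem_ne_zero_of_ne_bot h1
    rw [Ideal.mem_comap, Ideal.mem_span_singleton'] at hs
    obtain ⟨r', hr'⟩ := hs
    apply htorS s hs0
    rw [hsmul, ← hr', mul_smul, hl, smul_zero]
  set l0 : L := e.symm 1 with hl0
  have hl0ne : l0 ≠ 0 := by
    intro h0
    have : e l0 = 0 := by rw [h0, map_zero]
    rw [hl0, LinearEquiv.apply_symm_apply] at this
    exact one_ne_zero this
  let ψ : R →ₗ[R] L := LinearMap.toSpanSingleton R L l0
  have hψ : Function.Injective ψ := by
    rw [injective_iff_map_eq_zero]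
    intro r hr
    by_contra hr0
    exact hl0ne (htor r hr0 l0 hr)
  let N : Submodule S L := LinearMap.range (ψ.restrictScalars S)
  have hrankN : Module.rank S N = Module.rank S L := by
    have e1 : R ≃ₗ[S] N := LinearEquiv.ofInjective (ψ.restrictScalars S) hψ
    rw [← e1.rank_eq, e.rank_eq]
  have hrankQ : Module.rank S (L ⧸ N) = 0 := by
    have h1 := rank_quotient_add_rank_of_isDomain N
    rw [hrankN] at h1
    have h2 : Module.rank S L < Cardinal.aleph0 := Module.rank_lt_aleph0 S L
    exact Cardinal.eq_of_add_eq_add_right (by rw [h1, zero_add]) h2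
  rw [rank_eq_zero_iff] at hrankQ
  have hN : ∀ l : L, ∃ a : S, a ≠ 0 ∧ a • l ∈ N := by
    intro l
    obtain ⟨a, ha, hal⟩ := hrankQ (Submodule.Quotient.mk l)
    rw [← Submodule.Quotient.mk_smul, Submodule.Quotient.mk_eq_zero] at hal
    exact ⟨a, ha, hal⟩
  obtain ⟨T, hT⟩ := hfinL.fg_top
  have hcommon : ∀ T : Finset L, ∃ a : S, a ≠ 0 ∧ ∀ l ∈ T, a • l ∈ N := by
    intro T
    induction T using Finset.induction_on with
    | empty => exact ⟨1, one_ne_zero, by simp⟩
    | insert l T _ ih =>
      obtain ⟨a, ha, haT⟩ := ih
      obtain ⟨b, hb, hbl⟩ := hN l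
      refine ⟨a * b, mul_ne_zero ha hb, fun l' hl' => ?_⟩
      rcases Finset.mem_insert.mp hl' with rfl | hl'
      · rw [mul_smul]; exact N.smul_mem _ hbl
      · rw [mul_comm, mul_smul]; exact N.smul_mem _ (haT _ hl')
  obtain ⟨a, ha, haT⟩ := hcommon T
  have haL : ∀ l : L, a • l ∈ N := by
    intro l
    have hl : l ∈ Submodule.span S (T : Set L) := by rw [hT]; trivial
    induction hl using Submodule.span_induction with
    | mem x hx => exact haT x hx
    | zero => rw [smul_zero]; exact N.zero_mem
    | add x y _ _ hx hy => rw [smul_add]; exact N.add_mem hx hy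
    | smul c x _ hx => rw [smul_comm]; exact N.smul_mem _ hx
  have haL' : ∀ l : L, ∃ r : R, r • l0 = a • l := fun l => haL l
  choose f hf using haL'
  have hfuniq : ∀ r r' : R, r • l0 = r' • l0 → r = r' := fun r r' h => hψ h
  let F : L →ₗ[R] R :=
    { toFun := f
      map_add' := fun x y => by
        apply hfuniq
        rw [add_smul, hf, hf, hf, smul_add]
      map_smul' := fun r x => by
        apply hfuniq
        rw [RingHom.id_apply, smul_eq_mul, mul_smul, hf, hf, hsmul, hsmul, smul_comm] }
  have hF : Function.Injective F := by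
    rw [injective_iff_map_eq_zero]
    intro l hl
    apply htorS a ha
    rw [← hf l]
    change f l = 0 at hl
    rw [hl, zero_smul]
  refine ⟨LinearMap.range F, ?_, ?_, ⟨LinearEquiv.ofInjective F hF⟩⟩
  · intro h0
    have h1 : F l0 = 0 := by
      have : F l0 ∈ LinearMap.range F := ⟨l0, rfl⟩
      rw [h0] at this
      exact this
    exact hl0ne (hF (by rw [h1, map_zero]))
  · obtain ⟨xs, hlen, hspan, hreg⟩ := h.exists_seq
    have hnt : Nontrivial (LinearMap.range F) := by
      have : Nontrivial L := ⟨⟨l0, 0, hl0ne⟩⟩
      exact (LinearEquiv.ofInjective F hF).symm.toEquiv.nontrivial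
    refine ⟨xs.map (algebraMap S R), by simpa using hlen, mem_maximalIdeal_of_isRegular hreg, ?_⟩
    apply IsRegular.of_isWeaklyRegular_of_mem_maximalIdeal _ (mem_maximalIdeal_of_isRegular hreg)
    rw [isWeaklyRegular_map_algebraMap_iff]
    have e2 : LinearMap.range F ≃ₗ[S] R :=
      ((LinearEquiv.ofInjective F hF).symm.restrictScalars S) ≪≫ₗ e
    rw [e2.isWeaklyRegular_congr, ← isWeaklyRegular_map_algebraMap_iff R R xs]
    exact hreg.1

end

end Pool.Agent.W_cbb711
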