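import Mathlib
import Pool.Agent.W_cbb711.PSeries
import Pool.Agent.W_cbb711.Structure
import Pool.Agent.W_cbb711.Perturb

/-!
# Existence of a normalisation for complete local rings with finite residue field
-/

set_option autoImplicit false

namespace Pool.Agent.W_cbb711

open IsLocalRing PowerSeries RingTheory.Sequence

/-- The base rings used here. -/
structure Base (S : Type) [CommRing S] (ys : List S) : Prop where
  isLocal : IsLocalRing S
  noeth : IsNoetherianRing S
  ofList : Ideal.ofList ys = maximalIdeal S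
  prec : IsPrecomplete (maximalIdeal S) S
  fin : Finite (ResidueField S)

theorem Base.powerSeries {S : Type} [CommRing S] {ys : List S} (h : Base S ys) :
    Base S⟦X⟧ (ys.map (C : S →+* S⟦X⟧) ++ [(X : S⟦X⟧)]) := by
  have := h.isLocal
  have := h.noeth
  have := h.prec
  have := h.fin
  exact ⟨inferInstance, inferInstance, ofList_powerSeries h.ofList, isPrecomplete_powerSeries,
    finite_residueField_powerSeries⟩

theorem base_zmod (p : ℕ) [Fact p.Prime] : Base (ZMod p) [] := by
  refine ⟨inferInstance, inferInstance, ?_, ?_, ?_⟩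
  · rw [Ideal.ofList_nil, IsLocalRing.maximalIdeal_eq_bot]
  · rw [IsLocalRing.maximalIdeal_eq_bot]
    infer_instance
  · exact Finite.of_surjective _ (IsLocalRing.residue_surjective (R := ZMod p))

theorem base_padic (p : ℕ) [Fact p.Prime] : Base ℤ_[p] [(p : ℤ_[p])] := by
  refine ⟨inferInstance, inferInstance, ?_, ?_, ?_⟩
  · rw [Ideal.ofList_singleton, PadicInt.maximalIdeal_eq_span_p]
  · infer_instance
  · exact Finite.of_equiv _ (PadicInt.residueField (p := p)).symm.toEquiv

theorem exists_padicHom (p : ℕ) [Fact p.Prime] (R : Type) [CommRing R] [IsLocalRing R]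
    (hR : IsAdicComplete (maximalIdeal R) R) (hp : (p : R) ∈ maximalIdeal R) :
    Nonempty (ℤ_[p] →+* R) := by
  have hchar : ∀ n : ℕ, ∃ c : ℕ, CharP (R ⧸ maximalIdeal R ^ n) c ∧ c ∣ p ^ n := by
    intro n
    obtain ⟨c, hc⟩ := CharP.exists (R ⧸ maximalIdeal R ^ n)
    refine ⟨c, hc, (CharP.cast_eq_zero_iff (R ⧸ maximalIdeal R ^ n) c _).1 ?_⟩
    have h1 : ((p : R) ^ n) ∈ maximalIdeal R ^ n := Ideal.pow_mem_pow hp n
    rw [← Ideal.Quotient.eq_zero_iff_mem] at h1
    rw [← h1]
    push_cast
    simp
  choose c hc hcp using hchar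
  let g : ∀ n : ℕ, ZMod (p ^ n) →+* R ⧸ maximalIdeal R ^ n := fun n =>
    letI := hc n
    ZMod.castHom (hcp n) _
  refine ⟨IsAdicComplete.liftRingHom (maximalIdeal R)
    (fun n => (g n).comp (PadicInt.toZModPow n)) ?_⟩
  intro m n hmn
  rw [← PadicInt.zmod_cast_comp_toZModPow m n hmn, ← RingHom.comp_assoc, ← RingHom.comp_assoc]
  congr 1
  exact Subsingleton.elim _ _

theorem exists_tower (R : Type) [CommRing R] [IsLocalRing R]
    (hR : IsAdicComplete (maximalIdeal R) R) (xs : List R) (hxs : ∀ x ∈ xs, x ∈ maximalIdeal R) :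
    ∀ (S₀ : Type) [CommRing S₀] (ys₀ : List S₀) (_ : Base S₀ ys₀) (φ : S₀ →+* R),
      ∃ (S : Type) (_ : CommRing S) (ys : List S) (f : S →+* R), Base S ys ∧
        ys.map f = ys₀.map φ ++ xs := by
  induction xs with
  | nil =>
    intro S₀ _ ys₀ h₀ φ
    exact ⟨S₀, inferInstance, ys₀, φ, h₀, by simp⟩
  | cons x xs ih =>
    intro S₀ _ ys₀ h₀ φ
    obtain ⟨ψ, hψ, hψX⟩ := exists_eval hR φ (hxs x (by simp))
    obtain ⟨S, i, ys, f, hb, hf⟩ := ih (fun y hy => hxs y (by simp [hy])) S₀⟦X⟧ _ h₀.powerSeries ψ
    refine ⟨S, i, ys, f, hb, ?_⟩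
    rw [hf]
    simp only [List.map_append, List.map_map, List.map_cons, List.map_nil, hψX,
      List.append_assoc, List.singleton_append]
    congr 1
    apply List.map_congr_left
    intro a _
    exact hψ a

/-- Finiteness over the base. -/
theorem finite_of_base (R : Type) [CommRing R] [IsLocalRing R] [IsNoetherianRing R]
    (hR : IsAdicComplete (maximalIdeal R) R) [Finite (ResidueField R)]
    (S : Type) [CommRing S] (ys : List S) (hb : Base S ys) [Algebra S R]
    (hys : ∀ y ∈ ys, algebraMap S R y ∈ maximalIdeal R)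
    (hdim : ringKrullDim (R ⧸ Ideal.ofList (ys.map (algebraMap S R))) ≤ 0) :
    Module.Finite S R := by
  have := hb.isLocal
  have := hb.noeth
  have := hb.prec
  set J := Ideal.ofList (ys.map (algebraMap S R)) with hJ
  have hJle : J ≤ maximalIdeal R := by
    rw [hJ, Ideal.ofList, Ideal.span_le]
    intro x hx
    rw [Set.mem_ofPred_eq, List.mem_map] at hx
    obtain ⟨y, hy, rfl⟩ := hx
    exact hys y hy
  have hJne : J ≠ ⊤ := fun h =>
    (IsLocalRing.maximalIdeal.isMaximal R).ne_top (top_le_iff.mp (h ▸ hJle))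
  have hnt : Nontrivial (R ⧸ J) := Ideal.Quotient.nontrivial_iff.mpr hJne
  have hloc : IsLocalRing (R ⧸ J) :=
    IsLocalRing.of_surjective' (Ideal.Quotient.mk J) Ideal.Quotient.mk_surjective
  have hdim0 : Ring.KrullDimLE 0 (R ⧸ J) := by
    rw [Ring.krullDimLE_iff]
    exact_mod_cast hdim
  have hart : IsArtinianRing (R ⧸ J) := by
    rw [isArtinianRing_iff_isNoetherianRing_krullDimLE_zero]
    exact ⟨inferInstance, hdim0⟩
  have hfinres : Finite (ResidueField (R ⧸ J)) := by
    have hl : IsLocalHom (Ideal.Quotient.mk J) := by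
      constructor
      intro a ha
      by_contra hna
      have h1 : a ∈ maximalIdeal R := hna
      obtain ⟨b, hb⟩ := ha.exists_right_inv
      obtain ⟨b, rfl⟩ := Ideal.Quotient.mk_surjective b
      rw [← map_mul, ← map_one (Ideal.Quotient.mk J), Ideal.Quotient.eq] at hb
      have h2 := hJle hb
      have h3 : (1 : R) ∈ maximalIdeal R := by
        have := Ideal.sub_mem _ (Ideal.mul_mem_right b _ h1) h2
        rwa [sub_sub_cancel] at this
      exact (Ideal.ne_top_iff_one _).1 (IsLocalRing.maximalIdeal.isMaximal R).ne_top h3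
    refine Finite.of_surjective (IsLocalRing.ResidueField.map (Ideal.Quotient.mk J)) ?_
    intro x
    obtain ⟨y, rfl⟩ := IsLocalRing.residue_surjective x
    obtain ⟨z, rfl⟩ := Ideal.Quotient.mk_surjective y
    exact ⟨residue R z, by rw [IsLocalRing.ResidueField.map_residue]⟩
  have hfin : Finite (R ⧸ J) := by
    obtain ⟨n, hn⟩ := IsArtinianRing.isNilpotent_jacobson_bot (R := R ⧸ J)
    rw [IsLocalRing.jacobson_eq_maximalIdeal ⊥ bot_ne_top] at hn
    have h0 : Finite ((R ⧸ J) ⧸ maximalIdeal (R ⧸ J)) := hfinres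
    have h1 : Finite ((R ⧸ J) ⧸ maximalIdeal (R ⧸ J) ^ n) :=
      Ideal.finite_quotient_pow (IsNoetherian.noetherian _) n
    rw [hn] at h1
    exact Finite.of_injective (Ideal.Quotient.mk (0 : Ideal (R ⧸ J))) (by
      rw [RingHom.injective_iff_ker_eq_bot, Ideal.mk_ker]
      rfl)
  -- lifts of all the elements of `R ⧸ J`
  have hJI : J = (maximalIdeal S).map (algebraMap S R) := by
    rw [← hb.ofList, Ideal.map_ofList]
  have hhaus : IsHausdorff (maximalIdeal S) R := by
    rw [← IsHausdorff.map_algebraMap_iff (S := R), ← hJI]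
    have h1 : IsHausdorff (maximalIdeal R) R := hR.toIsHausdorff
    constructor
    intro x hx
    apply h1.haus
    intro n
    have h2 := hx n
    rw [SModEq.zero] at h2 ⊢
    exact Submodule.smul_mono_left (Ideal.pow_right_mono hJle n) h2
  have hfint := Fintype.ofFinite (R ⧸ J)
  let r : (R ⧸ J) → R := fun q => (Ideal.Quotient.mk_surjective q).choose
  have hr : ∀ q, Ideal.Quotient.mk J (r q) = q := fun q =>
    (Ideal.Quotient.mk_surjective q).choose_spec
  let g : ((R ⧸ J) → S) →ₗ[S] R := Fintype.linearCombination S r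
  have hprec : IsPrecomplete (maximalIdeal S) ((R ⧸ J) → S) :=
    isPrecomplete_of_finite _ _
  have hsurj : Function.Surjective g := by
    classical
    apply surjective_of_mkQ_comp_surjective (I := maximalIdeal S)
    intro y
    obtain ⟨z, rfl⟩ := Submodule.mkQ_surjective _ y
    refine ⟨Pi.single (Ideal.Quotient.mk J z) 1, ?_⟩
    rw [LinearMap.comp_apply, Submodule.mkQ_apply, Submodule.mkQ_apply, Submodule.Quotient.eq]
    have h3 : g (Pi.single (Ideal.Quotient.mk J z) 1) = r (Ideal.Quotient.mk J z) := by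
      simp [g, Fintype.linearCombination_apply_single]
    rw [h3]
    have h4 : r (Ideal.Quotient.mk J z) - z ∈ J := by
      rw [← Ideal.Quotient.eq, hr]
    rw [Ideal.smul_top_eq_map, ← hJI]
    exact h4
  exact Module.Finite.of_surjective g hsurj

theorem normalisation_of_seq (R : Type) [CommRing R] [IsLocalRing R] [IsNoetherianRing R]
    (hR : IsAdicComplete (maximalIdeal R) R) [Finite (ResidueField R)] (d : ℕ)
    (hd : ringKrullDim R = d) (S₀ : Type) [CommRing S₀] (ys₀ : List S₀) (h₀ : Base S₀ ys₀)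
    (φ : S₀ →+* R) (xs : List R) (hxs : IsRegular R (ys₀.map φ ++ xs))
    (hlen : (ys₀.map φ ++ xs).length = d) :
    ∃ (S : Type) (_ : CommRing S) (_ : IsLocalRing S) (_ : IsNoetherianRing S)
      (_ : IsPrecomplete (maximalIdeal S) S) (_ : Finite (ResidueField S)) (_ : Algebra S R),
      Normalisation S R d := by
  have hmem := mem_maximalIdeal_of_isRegular hxs
  obtain ⟨S, iS, ys, f, hb, hf⟩ := exists_tower R hR xs
    (fun x hx => hmem x (by simp [hx])) S₀ ys₀ h₀ φ
  have := hb.isLocal
  have := hb.noeth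
  have := hb.prec
  have := hb.fin
  let _ : Algebra S R := f.toAlgebra
  have hmap : ys.map (algebraMap S R) = ys₀.map φ ++ xs := hf
  refine ⟨S, inferInstance, inferInstance, inferInstance, inferInstance, inferInstance,
    inferInstance, ?_, ?_⟩
  · refine finite_of_base R hR S ys hb ?_ ?_
    · intro y hy
      apply hmem
      rw [← hmap]
      exact List.mem_map_of_mem hy
    · rw [hmap]
      have h1 := ringKrullDim_add_length_eq_ringKrullDim_of_isRegular _ hxs
      rw [hd, hlen] at h1
      have h2 : ringKrullDim (R ⧸ Ideal.ofList (ys₀.map φ ++ xs)) + (d : WithBot ℕ∞) ≤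
          0 + (d : WithBot ℕ∞) := by
        rw [zero_add]
        exact h1.le
      exact (ENat.WithBot.add_le_add_natCast_right_iff).1 h2
  · refine ⟨ys, ?_, hb.ofList, ?_⟩
    · rw [← hlen, ← hmap, List.length_map]
    · rw [hmap]
      exact hxs

theorem exists_normalisation (R : Type) [CommRing R] [IsLocalRing R] [IsNoetherianRing R]
    [IsDomain R] (hR : IsAdicComplete (maximalIdeal R) R) [Finite (ResidueField R)] (d : ℕ)
    (hd : ringKrullDim R = d) (hCM : DepthGE R R d) :
    ∃ (S : Type) (_ : CommRing S) (_ : IsLocalRing S) (_ : IsNoetherianRing S)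
      (_ : IsPrecomplete (maximalIdeal S) S) (_ : Finite (ResidueField S)) (_ : Algebra S R),
      Normalisation S R d := by
  obtain ⟨p, hp⟩ := CharP.exists (ResidueField R)
  have hpp : p.Prime := by
    rcases CharP.char_is_prime_or_zero (ResidueField R) p with h | h
    · exact h
    · subst h
      exact absurd (CharP.charP_to_charZero (ResidueField R))
        (fun h => not_finite_iff_infinite.2 (@CharZero.infinite _ _ h) inferInstance)
  have : Fact p.Prime := ⟨hpp⟩
  have hpm : (p : R) ∈ maximalIdeal R := by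
    rw [← IsLocalRing.residue_eq_zero_iff, map_natCast]
    exact CharP.cast_eq_zero _ _
  by_cases hp0 : (p : R) = 0
  · have : CharP R p := by
      have h1 : (p : R) = 0 := hp0
      obtain ⟨c, hc⟩ := CharP.exists R
      have h2 := (CharP.cast_eq_zero_iff R c p).1 h1
      rcases (Nat.dvd_prime hpp).1 h2 with h | h
      · subst h
        have h3 := CharP.cast_eq_zero R 1
        rw [Nat.cast_one] at h3
        exact absurd h3 one_ne_zero
      · rwa [← h]
    obtain ⟨xs, hlen, hmem, hreg⟩ := hCM
    exact normalisation_of_seq R hR d hd (ZMod p) [] (base_zmod p) (ZMod.castHom dvd_rfl R) xs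
      (by simpa using hreg) (by simpa using hlen)
  · obtain ⟨φ⟩ := exists_padicHom p R hR hpm
    have hd1 : ∃ e, d = e + 1 := by
      rcases d with _ | e
      · exfalso
        have h0 : Ring.KrullDimLE 0 R := by
          rw [Ring.krullDimLE_iff, hd]
        have hf : IsField R := Ring.KrullDimLE.isField_of_isDomain
        rw [IsLocalRing.isField_iff_maximalIdeal_eq.1 hf] at hpm
        exact hp0 (by simpa using hpm)
      · exact ⟨e, rfl⟩
    obtain ⟨e, rfl⟩ := hd1
    have hreg : IsSMulRegular R (p : R) := by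
      intro a b hab
      exact mul_left_cancel₀ hp0 hab
    obtain ⟨xs, hlen, hmem, hreg'⟩ := hCM.quotSMulTop hpm hreg
    refine normalisation_of_seq R hR (e + 1) hd ℤ_[p] [(p : ℤ_[p])] (base_padic p) φ xs ?_ ?_
    · simp only [List.map_cons, map_natCast, List.map_nil, List.singleton_append]
      rw [isRegular_cons_iff]
      exact ⟨hreg, hreg'⟩
    · simp [hlen]

end Pool.Agent.W_cbb711
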