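import Pool.Agent.W_cbb711.Cocycle

set_option autoImplicit false

universe u

open IsLocalRing RingTheory.Sequence Ideal Pointwise Filter

namespace Pool.Agent.W_cbb711

lemma finite_quotient_smul_top {S : Type*} [CommRing S] [IsNoetherianRing S] [IsLocalRing S]
    [Finite (ResidueField S)] (M : Type*) [AddCommGroup M] [Module S M] [Module.Finite S M]
    (k : ℕ) : Finite (M ⧸ ((maximalIdeal S) ^ k • (⊤ : Submodule S M))) := by
  have h0 : Finite (S ⧸ maximalIdeal S) := ‹Finite (ResidueField S)›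
  have h1 : Finite (S ⧸ (maximalIdeal S) ^ k) :=
    Ideal.finite_quotient_pow (IsNoetherian.noetherian _) k
  have h2 : Module.Finite (S ⧸ (maximalIdeal S) ^ k)
      (M ⧸ ((maximalIdeal S) ^ k • (⊤ : Submodule S M))) :=
    Module.Finite.of_restrictScalars_finite S _ _
  exact Module.finite_of_finite (S ⧸ (maximalIdeal S) ^ k)

/-- Ultrafilter limits in finite modules over a complete local ring with finite residue field. -/
lemma exists_ulim {S : Type*} [CommRing S] [IsNoetherianRing S] [IsLocalRing S]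
    [IsPrecomplete (maximalIdeal S) S] [Finite (ResidueField S)]
    (M : Type*) [AddCommGroup M] [Module S M] [Module.Finite S M]
    (U : Ultrafilter ℕ) (f : ℕ → M) :
    ∃ L : M, ∀ k, ∀ᶠ n in (U : Filter ℕ), f n - L ∈ (maximalIdeal S) ^ k • (⊤ : Submodule S M) := by
  have h1 : ∀ k, ∃ m : M, ∀ᶠ n in (U : Filter ℕ),
      f n - m ∈ (maximalIdeal S) ^ k • (⊤ : Submodule S M) := by
    intro k
    have hfin := finite_quotient_smul_top (S := S) M k
    let g : ℕ → M ⧸ ((maximalIdeal S) ^ k • (⊤ : Submodule S M)) :=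
      fun n => Submodule.Quotient.mk (f n)
    have h3 : ∃ q, ∀ᶠ n in (U : Filter ℕ), g n = q := by
      have h4 : ∀ᶠ n in (U : Filter ℕ), ∃ q, g n = q := Filter.Eventually.of_forall fun n => ⟨_, rfl⟩
      rwa [Ultrafilter.eventually_exists_iff] at h4
    obtain ⟨q, hq⟩ := h3
    obtain ⟨m, rfl⟩ := Submodule.Quotient.mk_surjective _ q
    refine ⟨m, hq.mono fun n hn => ?_⟩
    exact (Submodule.Quotient.eq _).mp hn
  choose m hm using h1
  have hcauchy : ∀ {a b : ℕ}, a ≤ b → m a ≡ m b [SMOD ((maximalIdeal S) ^ a • ⊤ : Submodule S M)] := by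
    intro a b hab
    rw [SModEq.sub_mem]
    obtain ⟨n, hn1, hn2⟩ := ((hm a).and (hm b)).exists
    have h3 := Submodule.sub_mem _ (pow_smul_top_anti (A := M) (maximalIdeal S) hab hn2) hn1
    have h4 : f n - m b - (f n - m a) = m a - m b := by abel
    rwa [h4] at h3
  have hprec : IsPrecomplete (maximalIdeal S) M := isPrecomplete_of_finite _ M
  obtain ⟨L, hL⟩ := hprec.prec hcauchy
  refine ⟨L, fun k => (hm k).mono fun n hn => ?_⟩
  have h3 := hL k
  rw [SModEq.sub_mem] at h3
  have := Submodule.add_mem _ hn h3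
  rwa [sub_add_sub_cancel] at this

section

variable {S R : Type u} [CommRing S] [CommRing R] [Algebra S R]

/-- The action of `R` on an ideal transported to `R`. -/
noncomputable def phiOf (I : Ideal R) (e : I ≃ₗ[S] R) : R →ₐ[S] Module.End S R :=
  (e.conjAlgEquiv S).toAlgHom.comp (Algebra.lsmul S S I)

lemma phiOf_apply (I : Ideal R) (e : I ≃ₗ[S] R) (a v : R) :
    phiOf I e a v = e (a • e.symm v) := rfl

lemma iso_of_intertwiner {I J : Ideal R} (e : I ≃ₗ[S] R) (e' : J ≃ₗ[S] R) (θ : R ≃ₗ[S] R)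
    (hθ : ∀ a v, θ (phiOf I e a v) = phiOf J e' a (θ v)) : Nonempty (I ≃ₗ[R] J) := by
  let f : I ≃ₗ[S] J := (e ≪≫ₗ θ) ≪≫ₗ e'.symm
  have hf : ∀ i, f i = e'.symm (θ (e i)) := fun _ => rfl
  refine ⟨{ f with map_smul' := fun a i => ?_ }⟩
  change f (a • i) = a • f i
  rw [hf, hf]
  apply e'.injective
  rw [LinearEquiv.apply_symm_apply]
  have h1 := hθ a (e i)
  rw [phiOf_apply, phiOf_apply, LinearEquiv.symm_apply_apply] at h1
  exact h1

end

section

variable {S R : Type u} [CommRing S] [IsLocalRing S] [IsNoetherianRing S]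
  [IsPrecomplete (maximalIdeal S) S] [Finite (ResidueField S)] [CommRing R]
  [IsLocalRing R] [IsNoetherianRing R] [Algebra S R] {d : ℕ} [IsDomain R]

/-- There is no infinite sequence of pairwise nonisomorphic maximal Cohen-Macaulay ideals. -/
theorem no_sequence (hn : Normalisation S R d) (hd : ringKrullDim R = d)
    (hCM : DepthGE R R d) (h2 : RegUpToTwo R) (I : ℕ → Ideal R) (hI : ∀ n, I n ≠ ⊥)
    (hIM : ∀ n, DepthGE R (I n) d) : ∃ m n, m ≠ n ∧ Nonempty (I m ≃ₗ[R] I n) := by
  have := hn.finite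
  have := hn.free
  let e : ∀ n, I n ≃ₗ[S] R := fun n => (hn.exists_equiv hd (I n) (hI n) (hIM n)).some
  let φ : ℕ → (R →ₐ[S] Module.End S R) := fun n => phiOf (I n) (e n)
  set U : Ultrafilter ℕ := hyperfilter ℕ with hU
  set 𝔪 := maximalIdeal S with h𝔪
  have hhaus : IsHausdorff 𝔪 (Module.End S R) := inferInstance
  choose L hL using fun a : R => exists_ulim (S := S) (Module.End S R) U (fun n => φ n a)
  have huniq : ∀ (f : ℕ → Module.End S R) (x y : Module.End S R),
      (∀ k, ∀ᶠ n in (U : Filter ℕ), f n - x ∈ 𝔪 ^ k • (⊤ : Submodule S (Module.End S R))) →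
      (∀ k, ∀ᶠ n in (U : Filter ℕ), f n - y ∈ 𝔪 ^ k • (⊤ : Submodule S (Module.End S R))) →
      x = y := by
    intro f x y hx hy
    rw [← sub_eq_zero]
    apply hhaus.haus
    intro k
    rw [SModEq.zero]
    obtain ⟨n, h1, h3⟩ := ((hx k).and (hy k)).exists
    have := Submodule.sub_mem _ h3 h1
    rwa [sub_sub_sub_cancel_left] at this
  have hLadd : ∀ a b, L (a + b) = L a + L b := by
    intro a b
    refine huniq (fun n => φ n (a + b)) _ _ (hL (a + b)) (fun k => ?_)
    filter_upwards [hL a k, hL b k] with n h1 h3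
    have := Submodule.add_mem _ h1 h3
    have h4 : φ n (a + b) - (L a + L b) = φ n a - L a + (φ n b - L b) := by
      rw [map_add]; abel
    rw [h4]; exact this
  have hLsmul : ∀ (s : S) a, L (s • a) = s • L a := by
    intro s a
    refine huniq (fun n => φ n (s • a)) _ _ (hL (s • a)) (fun k => ?_)
    filter_upwards [hL a k] with n h1
    have h4 : φ n (s • a) - s • L a = s • (φ n a - L a) := by
      rw [map_smul, smul_sub]
    rw [h4]; exact Submodule.smul_mem _ _ h1
  have hLone : L 1 = 1 := by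
    refine huniq (fun n => φ n 1) _ _ (hL 1) (fun k => ?_)
    filter_upwards with n
    rw [map_one, sub_self]; exact Submodule.zero_mem _
  have hLmul : ∀ a b, L (a * b) = L a * L b := by
    intro a b
    refine huniq (fun n => φ n (a * b)) _ _ (hL (a * b)) (fun k => ?_)
    filter_upwards [hL a k, hL b k] with n h1 h3
    have h4 : φ n (a * b) - L a * L b = φ n a * (φ n b - L b) + (φ n a - L a) * L b := by
      rw [map_mul, mul_sub, sub_mul]; abel
    rw [h4]
    refine Submodule.add_mem _ ?_ ?_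
    · exact map_mem_smul_top (LinearMap.mulLeft S (φ n a)) h3
    · exact map_mem_smul_top (LinearMap.mulRight S (L b)) h1
  let Lφ : R →ₐ[S] Module.End S R :=
    AlgHom.ofLinearMap { toFun := L, map_add' := hLadd, map_smul' := hLsmul } hLone hLmul
  have hLφ : ∀ a, Lφ a = L a := fun _ => rfl
  obtain ⟨N, hN⟩ := determinacy Lφ (inner_of_derivation hn hd hCM h2 Lφ)
  obtain ⟨T, hT⟩ := (Module.Finite.fg_top : (⊤ : Submodule S R).FG)
  have hev : ∀ᶠ n in (U : Filter ℕ), ∀ a, φ n a - Lφ a ∈
      𝔪 ^ N • (⊤ : Submodule S (Module.End S R)) := by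
    have h1 : ∀ᶠ n in (U : Filter ℕ), ∀ t ∈ T, φ n t - L t ∈
      𝔪 ^ N • (⊤ : Submodule S (Module.End S R)) := by
      rw [Filter.eventually_all_finset]
      intro t _
      exact hL t N
    filter_upwards [h1] with n hn1 a
    have ha : a ∈ Submodule.span S (T : Set R) := by rw [hT]; trivial
    rw [hLφ]
    induction ha using Submodule.span_induction with
    | mem x hx => exact hn1 x hx
    | zero =>
      have h5 : L 0 = 0 := by
        have := hLadd 0 0
        rw [add_zero] at this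
        exact left_eq_add.mp this
      rw [map_zero, h5, sub_zero]; exact Submodule.zero_mem _
    | add x y _ _ hx hy =>
      have h4 : φ n (x + y) - L (x + y) = φ n x - L x + (φ n y - L y) := by
        rw [map_add, hLadd]; abel
      rw [h4]; exact Submodule.add_mem _ hx hy
    | smul c x _ hx =>
      have h4 : φ n (c • x) - L (c • x) = c • (φ n x - L x) := by
        rw [map_smul, hLsmul, smul_sub]
      rw [h4]; exact Submodule.smul_mem _ _ hx
  have hev2 : ∀ᶠ n in (U : Filter ℕ), ∃ θ : R ≃ₗ[S] R, ∀ a v, θ (Lφ a v) = φ n a (θ v) :=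
    hev.mono fun n hn => hN (φ n) hn
  obtain ⟨m, hm⟩ := hev2.exists
  have hne : ∀ᶠ n in (U : Filter ℕ), n ≠ m := by
    have h1 : ({m} : Set ℕ)ᶜ ∈ (U : Filter ℕ) := by
      rw [hU]
      exact Filter.compl_mem_hyperfilter_of_finite (Set.finite_singleton m)
    exact h1
  obtain ⟨n, ⟨θ', hθ'⟩, hnm⟩ := (hev2.and hne).exists
  obtain ⟨θ, hθ⟩ := hm
  refine ⟨m, n, hnm.symm, iso_of_intertwiner (e m) (e n) (θ.symm ≪≫ₗ θ') ?_⟩
  intro a v
  change θ' (θ.symm (φ m a v)) = φ n a (θ' (θ.symm v))
  rw [← hθ']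
  congr 1
  apply θ.injective
  rw [LinearEquiv.apply_symm_apply, hθ, LinearEquiv.apply_symm_apply]

end

end Pool.Agent.W_cbb711
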