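import Mathlib
import Pool.Agent.W_cbb711.ExistsNorm
import Pool.Agent.W_cbb711.Limit

/-!
# From `no infinite sequence` to finitely many classes; finite residue fields
-/

set_option autoImplicit false

namespace Pool.Agent.W_cbb711

open IsLocalRing RingTheory.Sequence

/-- If among any sequence of ideals satisfying `P` two are isomorphic, then there are only
finitely many isomorphism classes of ideals satisfying `P`. -/
theorem finitely_many_of_no_sequence (R : Type) [CommRing R] (P : Ideal R → Prop)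
    (h : ∀ I : ℕ → Ideal R, (∀ n, P (I n)) → ∃ m n, m ≠ n ∧ Nonempty (I m ≃ₗ[R] I n)) :
    ∃ (n : ℕ) (J : Fin n → Ideal R), ∀ I : Ideal R, P I → ∃ j : Fin n,
      Nonempty (↥I ≃ₗ[R] ↥(J j)) := by
  classical
  let r : Setoid {I : Ideal R // P I} :=
    { r := fun I J => Nonempty (I.1 ≃ₗ[R] J.1)
      iseqv := ⟨fun I => ⟨LinearEquiv.refl _ _⟩, fun ⟨e⟩ => ⟨e.symm⟩,
        fun ⟨e⟩ ⟨f⟩ => ⟨e.trans f⟩⟩ }
  have hfin : Finite (Quotient r) := by
    by_contra hinf
    rw [not_finite_iff_infinite] at hinf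
    let f : ℕ ↪ Quotient r := Infinite.natEmbedding _
    obtain ⟨m, n, hmn, he⟩ := h (fun n => (f n).out.1) (fun n => (f n).out.2)
    apply hmn
    apply f.injective
    rw [← Quotient.out_eq (f m), ← Quotient.out_eq (f n)]
    exact Quotient.sound he
  obtain ⟨n, ⟨e⟩⟩ := Finite.exists_equiv_fin (Quotient r)
  refine ⟨n, fun j => (e.symm j).out.1, fun I hI => ?_⟩
  refine ⟨e (Quotient.mk r ⟨I, hI⟩), ?_⟩
  beta_reduce
  rw [Equiv.symm_apply_apply]
  have h1 : Quotient.mk r ⟨I, hI⟩ = Quotient.mk r (Quotient.mk r ⟨I, hI⟩).out :=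
    (Quotient.out_eq _).symm
  exact Quotient.exact h1

theorem finiteResidueField (R : Type) [CommRing R] [IsLocalRing R] [IsNoetherianRing R]
    [Finite (ResidueField R)]
    (hR : IsAdicComplete (IsLocalRing.maximalIdeal R) R)
    (hCM : ∃ rs : List R, (∀ r ∈ rs, r ∈ IsLocalRing.maximalIdeal R) ∧
          RingTheory.Sequence.IsRegular R rs ∧
          (rs.length : WithBot ℕ∞) = ringKrullDim R)
    (h2 : ∀ (p : Ideal R) [p.IsPrime], p.height ≤ 2 →
          ∃ s : Finset (Localization.AtPrime p),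
            Ideal.span (s : Set (Localization.AtPrime p)) =
                IsLocalRing.maximalIdeal (Localization.AtPrime p) ∧
              (s.card : WithBot ℕ∞) ≤ ringKrullDim (Localization.AtPrime p)) :
    ∃ (n : ℕ) (J : Fin n → Ideal R),
        ∀ I : Ideal R, I ≠ ⊥ →
          (∃ rs : List R, (∀ r ∈ rs, r ∈ IsLocalRing.maximalIdeal R) ∧
              RingTheory.Sequence.IsRegular (↥I) rs ∧
              (rs.length : WithBot ℕ∞) = ringKrullDim R) →
          ∃ j : Fin n, Nonempty (↥I ≃ₗ[R] ↥(J j)) := by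
  obtain ⟨rs, hmem, hreg, hlen⟩ := hCM
  have hd : ringKrullDim R = rs.length := hlen.symm
  have hdepth : DepthGE R R rs.length := ⟨rs, rfl, hmem, hreg⟩
  have h2' : RegUpToTwo R := h2
  have hdom : IsDomain R :=
    isDomain_of_CM hd hdepth (fun p _ hp => isDomain_localization h2' p hp)
  obtain ⟨S, _, _, _, _, _, _, hn⟩ := exists_normalisation R hR rs.length hd hdepth
  have h1 := finitely_many_of_no_sequence R (fun I => I ≠ ⊥ ∧ DepthGE R I rs.length)
    (fun I hI => no_sequence hn hd hdepth h2' I (fun n => (hI n).1) (fun n => (hI n).2))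
  obtain ⟨n, J, hJ⟩ := h1
  refine ⟨n, J, fun I hI ⟨ss, hss, hssreg, hsslen⟩ => hJ I ⟨hI, ss, ?_, hss, hssreg⟩⟩
  rw [hd] at hsslen
  exact_mod_cast hsslen

end Pool.Agent.W_cbb711
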