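import Pool.Agent.W_cbb711.Structure

set_option autoImplicit false

universe u

open IsLocalRing RingTheory.Sequence Ideal Pointwise

namespace Pool.Agent.W_cbb711

section Tw

variable {R L : Type u} [CommRing R] [AddCommGroup L] [Module R L]

/-- Data of a self-extension of `L`. -/
structure Cocyc (R L : Type u) [CommRing R] [AddCommGroup L] [Module R L] where
  h : R → L → L
  add_left : ∀ a b v, h (a + b) v = h a v + h b v
  add_right : ∀ a v w, h a (v + w) = h a v + h a w
  mul_left : ∀ a b v, h (a * b) v = a • h b v + h a (b • v)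

/-- The extension attached to a cocycle. -/
@[ext] structure Tw (c : Cocyc R L) : Type u where
  fst : L
  snd : L

variable (c : Cocyc R L)

/-- as a set it is a product -/
def Tw.toProd : Tw c ≃ L × L where
  toFun p := (p.fst, p.snd)
  invFun p := ⟨p.1, p.2⟩
  left_inv _ := rfl
  right_inv _ := rfl

instance : AddCommGroup (Tw c) := (Tw.toProd c).addCommGroup

lemma Tw.fst_add (p q : Tw c) : (p + q).fst = p.fst + q.fst := rfl
lemma Tw.snd_add (p q : Tw c) : (p + q).snd = p.snd + q.snd := rfl
lemma Tw.fst_zero : (0 : Tw c).fst = 0 := rfl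
lemma Tw.snd_zero : (0 : Tw c).snd = 0 := rfl

lemma Cocyc.zero_right (a : R) : c.h a 0 = 0 := by
  have := c.add_right a 0 0
  rw [add_zero] at this
  exact left_eq_add.mp this

lemma Cocyc.zero_left (v : L) : c.h 0 v = 0 := by
  have := c.add_left 0 0 v
  rw [add_zero] at this
  exact left_eq_add.mp this

lemma Cocyc.one_left (v : L) : c.h 1 v = 0 := by
  have := c.mul_left 1 1 v
  rw [one_smul, mul_one, one_smul] at this
  exact left_eq_add.mp this

instance : Module R (Tw c) where
  smul a p := ⟨a • p.fst + c.h a p.snd, a • p.snd⟩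
  one_smul p := by
    change (⟨(1 : R) • p.fst + c.h 1 p.snd, (1 : R) • p.snd⟩ : Tw c) = p
    rw [c.one_left, one_smul, one_smul, add_zero]
  mul_smul a b p := by
    change (⟨(a * b) • p.fst + c.h (a * b) p.snd, (a * b) • p.snd⟩ : Tw c) =
      ⟨a • (b • p.fst + c.h b p.snd) + c.h a (b • p.snd), a • (b • p.snd)⟩
    rw [c.mul_left, mul_smul, mul_smul, smul_add, add_assoc]
  smul_zero a := by
    change (⟨a • (0 : L) + c.h a 0, a • (0 : L)⟩ : Tw c) = ⟨0, 0⟩
    rw [c.zero_right, smul_zero, add_zero]
  smul_add a p q := by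
    change (⟨a • (p.fst + q.fst) + c.h a (p.snd + q.snd), a • (p.snd + q.snd)⟩ : Tw c) =
      ⟨(a • p.fst + c.h a p.snd) + (a • q.fst + c.h a q.snd), a • p.snd + a • q.snd⟩
    rw [c.add_right, smul_add, smul_add]
    congr 1; abel
  add_smul a b p := by
    change (⟨(a + b) • p.fst + c.h (a + b) p.snd, (a + b) • p.snd⟩ : Tw c) =
      ⟨(a • p.fst + c.h a p.snd) + (b • p.fst + c.h b p.snd), a • p.snd + b • p.snd⟩
    rw [c.add_left, add_smul, add_smul]
    congr 1; abel
  zero_smul p := by
    change (⟨(0 : R) • p.fst + c.h 0 p.snd, (0 : R) • p.snd⟩ : Tw c) = ⟨0, 0⟩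
    rw [c.zero_left, zero_smul, zero_smul, add_zero]

lemma Tw.fst_smul (a : R) (p : Tw c) : (a • p).fst = a • p.fst + c.h a p.snd := rfl
lemma Tw.snd_smul (a : R) (p : Tw c) : (a • p).snd = a • p.snd := rfl

/-- If all self extensions split, then all cocycles are coboundaries. -/
lemma Cocyc.exists_coboundary [IsLocalRing R] [IsNoetherianRing R] [IsDomain R] {d : ℕ}
    (hd : ringKrullDim R = d) (hCM : DepthGE R R d) (h2 : RegUpToTwo R)
    (I : Ideal R) (hI : I ≠ ⊥) (hIM : DepthGE R I d) (e : L ≃ₗ[R] I) :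
    ∃ G : L → L, (∀ v w, G (v + w) = G v + G w) ∧ ∀ a v, G (a • v) = a • G v + c.h a v := by
  let ι : I →ₗ[R] Tw c :=
    { toFun := fun i => ⟨e.symm i, 0⟩
      map_add' := fun x y => by
        ext
        · rw [Tw.fst_add]; exact map_add _ _ _
        · rw [Tw.snd_add]; exact (add_zero 0).symm
      map_smul' := fun a x => by
        ext
        · rw [RingHom.id_apply, Tw.fst_smul]
          simp only [map_smul]
          rw [c.zero_right, add_zero]
        · rw [RingHom.id_apply, Tw.snd_smul, smul_zero] }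
  let π : Tw c →ₗ[R] I :=
    { toFun := fun p => e p.snd
      map_add' := fun x y => by rw [Tw.snd_add, map_add]
      map_smul' := fun a x => by rw [Tw.snd_smul, map_smul, RingHom.id_apply] }
  obtain ⟨σ, hσ⟩ := splits hd hCM h2 I hI hIM (Tw c) ι π (by
      intro x y hxy
      have h1 : e.symm x = e.symm y := congrArg Tw.fst hxy
      exact e.symm.injective h1) (by
      intro i
      exact ⟨⟨0, e.symm i⟩, e.apply_symm_apply i⟩) (by
      intro p
      constructor
      · intro hp
        have h1 : p.snd = 0 := e.injective (by rw [map_zero]; exact hp)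
        refine ⟨e p.fst, ?_⟩
        ext
        · exact e.symm_apply_apply p.fst
        · exact h1.symm
      · rintro ⟨i, rfl⟩
        exact e.map_zero)
  have hσ2 : ∀ i, (σ i).snd = e.symm i := by
    intro i
    have h1 : e (σ i).snd = i := hσ i
    have h3 := congrArg e.symm h1
    rwa [LinearEquiv.symm_apply_apply] at h3
  refine ⟨fun v => (σ (e v)).fst, ?_, ?_⟩
  · intro v w
    simp only
    rw [map_add, map_add, Tw.fst_add]
  · intro a v
    simp only
    rw [map_smul, map_smul, Tw.fst_smul, hσ2, LinearEquiv.symm_apply_apply]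

end Tw

section

variable {S R : Type u} [CommRing S] [CommRing R] [Algebra S R]

/-- The `S`-module `R` with the `R`-action given by `φ`. -/
@[ext] structure PhiMod (φ : R →ₐ[S] Module.End S R) : Type u where
  val : R

variable (φ : R →ₐ[S] Module.End S R)

/-- underlying set -/
def PhiMod.toR : PhiMod φ ≃ R where
  toFun p := p.val
  invFun p := ⟨p⟩
  left_inv _ := rfl
  right_inv _ := rfl

instance : AddCommGroup (PhiMod φ) := (PhiMod.toR φ).addCommGroup

lemma PhiMod.val_add (p q : PhiMod φ) : (p + q).val = p.val + q.val := rfl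
lemma PhiMod.val_zero : (0 : PhiMod φ).val = 0 := rfl

instance : Module S (PhiMod φ) := (PhiMod.toR φ).module S

lemma PhiMod.val_smul (s : S) (p : PhiMod φ) : (s • p).val = s • p.val := rfl

instance : Module R (PhiMod φ) where
  smul a v := ⟨φ a v.val⟩
  one_smul v := by
    change (⟨φ 1 v.val⟩ : PhiMod φ) = v
    rw [map_one, Module.End.one_apply]
  mul_smul a b v := by
    change (⟨φ (a * b) v.val⟩ : PhiMod φ) = ⟨φ a (φ b v.val)⟩
    rw [map_mul, Module.End.mul_apply]
  smul_zero a := by
    change (⟨φ a 0⟩ : PhiMod φ) = ⟨0⟩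
    rw [map_zero]
  smul_add a v w := by
    change (⟨φ a (v.val + w.val)⟩ : PhiMod φ) = ⟨φ a v.val + φ a w.val⟩
    rw [map_add]
  add_smul a b v := by
    change (⟨φ (a + b) v.val⟩ : PhiMod φ) = ⟨φ a v.val + φ b v.val⟩
    rw [map_add, LinearMap.add_apply]
  zero_smul v := by
    change (⟨φ 0 v.val⟩ : PhiMod φ) = ⟨0⟩
    rw [map_zero, LinearMap.zero_apply]

lemma PhiMod.val_smul' (a : R) (p : PhiMod φ) : (a • p).val = φ a p.val := rfl

instance : IsScalarTower S R (PhiMod φ) where
  smul_assoc s a v := by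
    ext
    rw [PhiMod.val_smul, PhiMod.val_smul', PhiMod.val_smul', map_smul, LinearMap.smul_apply]

/-- identity `S`-linear equivalence -/
def PhiMod.equiv : PhiMod φ ≃ₗ[S] R where
  toFun p := p.val
  map_add' _ _ := rfl
  map_smul' _ _ := rfl
  invFun p := ⟨p⟩
  left_inv _ := rfl
  right_inv _ := rfl

end

section

variable {S R : Type u} [CommRing S] [IsLocalRing S] [IsNoetherianRing S] [CommRing R]
  [IsLocalRing R] [IsNoetherianRing R] [Algebra S R] {d : ℕ} [IsDomain R]

/-- Rigidity: every derivation `R → End_S (R, φ)` is inner. -/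
theorem inner_of_derivation (hn : Normalisation S R d) (hd : ringKrullDim R = d)
    (hCM : DepthGE R R d) (h2 : RegUpToTwo R) (φ : R →ₐ[S] Module.End S R)
    (h : R →ₗ[S] Module.End S R) (hh : ∀ a b, h (a * b) = φ a * h b + h a * φ b) :
    ∃ g : Module.End S R, ∀ a, h a = φ a * g - g * φ a := by
  obtain ⟨I, hI, hIM, ⟨e⟩⟩ := hn.exists_ideal (PhiMod φ) (PhiMod.equiv φ)
  let c : Cocyc R (PhiMod φ) :=
    { h := fun a v => ⟨h a v.val⟩
      add_left := fun a b v => by
        ext
        rw [PhiMod.val_add, map_add]; rfl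
      add_right := fun a v w => by
        ext
        simp only [PhiMod.val_add, map_add]
      mul_left := fun a b v => by
        ext
        simp only [PhiMod.val_add, PhiMod.val_smul', hh]
        rfl }
  obtain ⟨G, hG1, hG2⟩ := c.exists_coboundary hd hCM h2 I hI hIM e
  have hch : ∀ a v, (c.h a v).val = h a v.val := fun _ _ => rfl
  have hhS : ∀ (s : S) v, c.h (algebraMap S R s) v = 0 := by
    intro s v
    have h3 : (c.h (algebraMap S R s) v).val = s • (c.h 1 v).val := by
      rw [hch, hch, Algebra.algebraMap_eq_smul_one, map_smul]; rfl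
    ext
    rw [h3, c.one_left, PhiMod.val_zero, smul_zero]
  have hGS : ∀ (s : S) (v : PhiMod φ), G (s • v) = s • G v := by
    intro s v
    have h1 := hG2 (algebraMap S R s) v
    rwa [hhS, add_zero, algebraMap_smul, algebraMap_smul] at h1
  refine ⟨{ toFun := fun v => - (G ⟨v⟩).val
            map_add' := fun v w => by
              have := hG1 ⟨v⟩ ⟨w⟩
              have h4 : (⟨v + w⟩ : PhiMod φ) = ⟨v⟩ + ⟨w⟩ := rfl
              rw [h4, this, PhiMod.val_add, neg_add]
            map_smul' := fun s v => by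
              have := hGS s ⟨v⟩
              have h4 : (⟨s • v⟩ : PhiMod φ) = s • ⟨v⟩ := rfl
              rw [h4, this, PhiMod.val_smul, RingHom.id_apply, smul_neg] }, fun a => ?_⟩
  ext v
  have h1 := congrArg PhiMod.val (hG2 a ⟨v⟩)
  rw [PhiMod.val_add, PhiMod.val_smul', hch] at h1
  have h4 : (a • (⟨v⟩ : PhiMod φ)) = ⟨φ a v⟩ := rfl
  rw [h4] at h1
  change h a v = φ a (- (G ⟨v⟩).val) - (- (G ⟨φ a v⟩).val)
  rw [h1, map_neg]; abel

end

end Pool.Agent.W_cbb711
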