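import Mathlib

set_option autoImplicit false

universe u

open IsLocalRing RingTheory.Sequence CategoryTheory Abelian Pointwise Ideal

namespace Pool.Agent.W_cbb711

variable {R : Type u} [CommRing R] [IsLocalRing R]

/-- `DepthGE R M c`: there is an `M`-regular sequence of length `c` inside the maximal ideal. -/
def DepthGE (R : Type u) [CommRing R] [IsLocalRing R] (M : Type u) [AddCommGroup M] [Module R M]
    (c : ℕ) : Prop :=
  ∃ rs : List R, rs.length = c ∧ (∀ r ∈ rs, r ∈ maximalIdeal R) ∧ IsRegular M rs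

variable {M : Type u} [AddCommGroup M] [Module R M]

lemma smul_top_lt [Nontrivial M] [Module.Finite R M] :
    maximalIdeal R • (⊤ : Submodule R M) < ⊤ := by
  rw [lt_top_iff_ne_top]
  intro h
  have := Submodule.eq_bot_of_le_smul_of_le_jacobson_bot (maximalIdeal R) (⊤ : Submodule R M)
    Module.Finite.fg_top h.ge (IsLocalRing.maximalIdeal_le_jacobson _)
  exact (bot_ne_top (α := Submodule R M)) this.symm

lemma depthGE_iff_ext [IsNoetherianRing R] [Nontrivial M] [Module.Finite R M] (c : ℕ) :
    DepthGE R M c ↔ ∀ i < c, Subsingleton (Ext (ModuleCat.of R (Shrink.{u} (R ⧸ maximalIdeal R)))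
      (ModuleCat.of R M) i) := by
  have h := (ModuleCat.exists_isRegular_tfae (maximalIdeal R) c (ModuleCat.of R M)
    (smul_top_lt)).out 3 1
  exact h

lemma DepthGE.mono [IsNoetherianRing R] [Nontrivial M] [Module.Finite R M] {c c' : ℕ} (h : DepthGE R M c)
    (hc : c' ≤ c) : DepthGE R M c' := by
  rw [depthGE_iff_ext] at h ⊢
  intro i hi
  exact h i (by omega)

lemma nontrivial_quotSMulTop [Nontrivial M] [Module.Finite R M] {s : R}
    (hs : s ∈ maximalIdeal R) : Nontrivial (QuotSMulTop s M) :=
  nontrivial_quotSMulTop_of_mem_maximalIdeal _ hs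

lemma DepthGE.quotSMulTop [IsNoetherianRing R] [Nontrivial M] [Module.Finite R M] {c : ℕ}
    (h : DepthGE R M (c + 1)) {s : R} (hs : s ∈ maximalIdeal R) (hreg : IsSMulRegular M s) :
    DepthGE R (QuotSMulTop s M) c := by
  have := nontrivial_quotSMulTop (M := M) hs
  rw [depthGE_iff_ext] at h ⊢
  intro i hi
  have zero1 := AddCommGrpCat.isZero_of_iff_subsingleton.mpr (h i (by omega))
  have zero2 := AddCommGrpCat.isZero_of_iff_subsingleton.mpr (h (i + 1) (by omega))
  have hreg' : IsSMulRegular (ModuleCat.of R M) s := hreg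
  exact AddCommGrpCat.subsingleton_of_isZero <| ShortComplex.Exact.isZero_of_both_zeros
    ((Ext.covariant_sequence_exact₃' _ hreg'.smulShortComplex_shortExact) i (i + 1) rfl)
    (zero1.eq_zero_of_src _) (zero2.eq_zero_of_tgt _)


omit [IsLocalRing R] in
lemma ringKrullDim_quotient_add_one_le {p q : Ideal R} [p.IsPrime] (hpq : p ≤ q) {x : R}
    (hxq : x ∈ q) (hxp : x ∉ p) : ringKrullDim (R ⧸ q) + 1 ≤ ringKrullDim (R ⧸ p) := by
  have hx : Ideal.Quotient.mk p x ∈ nonZeroDivisors (R ⧸ p) := by
    apply mem_nonZeroDivisors_of_ne_zero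
    rwa [Ne, Ideal.Quotient.eq_zero_iff_mem]
  refine le_trans ?_ (ringKrullDim_quotient_succ_le_of_nonZeroDivisor hx)
  gcongr
  let f : (R ⧸ p) ⧸ Ideal.span {Ideal.Quotient.mk p x} →+* R ⧸ q :=
    Ideal.Quotient.lift _ (Ideal.Quotient.factor hpq) (by
      intro a ha
      have : Ideal.span {Ideal.Quotient.mk p x} ≤ RingHom.ker (Ideal.Quotient.factor hpq) := by
        rw [Ideal.span_singleton_le_iff_mem, RingHom.mem_ker]
        simpa [Ideal.Quotient.eq_zero_iff_mem] using hxq
      exact this ha)
  refine ringKrullDim_le_of_surjective f ?_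
  apply Ideal.Quotient.lift_surjective_of_surjective
  exact Ideal.Quotient.factor_surjective hpq

omit [IsLocalRing R] in
lemma ringKrullDim_quotient_anti {I J : Ideal R} (h : I ≤ J) :
    ringKrullDim (R ⧸ J) ≤ ringKrullDim (R ⧸ I) :=
  ringKrullDim_le_of_surjective _ (Ideal.Quotient.factor_surjective h)

/-- If `depth M ≥ c`, then `dim R/p ≥ c` for all associated primes `p` of `M`. -/
lemma le_dim_of_associatedPrime [IsNoetherianRing R] (c : ℕ) :
    ∀ (M : Type u) [AddCommGroup M] [Module R M] [Nontrivial M] [Module.Finite R M]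
      (_ : DepthGE R M c) (p : Ideal R) (_ : IsAssociatedPrime p M),
      (c : WithBot ℕ∞) ≤ ringKrullDim (R ⧸ p) := by
  induction c with
  | zero =>
    intro M _ _ _ _ _ p hp
    have := hp.isPrime
    have : Nontrivial (R ⧸ p) := Ideal.Quotient.nontrivial_iff.mpr hp.isPrime.ne_top
    simpa using ringKrullDim_nonneg_of_nontrivial (R := R ⧸ p)
  | succ c ih =>
    intro M _ _ _ _ hM p hp
    obtain ⟨rs, hlen, hmem, hreg⟩ := hM
    match rs, hlen with
    | x :: rs', hlen =>
      rw [isRegular_cons_iff] at hreg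
      have hx : x ∈ maximalIdeal R := hmem x (by simp)
      have hxreg := hreg.1
      have := nontrivial_quotSMulTop (M := M) hx
      have hpp := hp.isPrime
      have hp' := hp
      rw [isAssociatedPrime_iff] at hp'
      obtain ⟨_, y, hy⟩ := hp'
      have hy0 : y ≠ 0 := by
        rintro rfl
        apply hpp.ne_top
        rw [hy]
        simp
      have hxp : x ∉ p := by
        rw [hy, Submodule.mem_colon_singleton, Submodule.mem_bot]
        intro h
        exact hy0 (isSMulRegular_iff_right_eq_zero_of_smul.mp hxreg y h)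
      -- the `p`-torsion submodule
      let U : Submodule R M :=
        { carrier := {z | ∀ a ∈ p, a • z = 0}
          add_mem' := fun {a b} ha hb r hr => by rw [smul_add, ha r hr, hb r hr, add_zero]
          zero_mem' := fun r _ => smul_zero r
          smul_mem' := fun c z hz r hr => by rw [smul_comm, hz r hr, smul_zero] }
      have hyU : y ∈ U := by
        intro a ha
        rw [hy, Submodule.mem_colon_singleton, Submodule.mem_bot] at ha
        exact ha
      obtain ⟨z, hzU, hzx⟩ : ∃ z ∈ U, z ∉ x • (⊤ : Submodule R M) := by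
        by_contra hcon
        push Not at hcon
        have hle : U ≤ maximalIdeal R • U := by
          intro z hz
          have h1 := hcon z hz
          obtain ⟨z', -, rfl⟩ := (Submodule.mem_smul_pointwise_iff_exists _ _ _).mp h1
          refine Submodule.smul_mem_smul hx ?_
          intro a ha
          have h2 := hz a ha
          rw [smul_comm] at h2
          exact isSMulRegular_iff_right_eq_zero_of_smul.mp hxreg _ h2
        have hUfg : U.FG := IsNoetherian.noetherian U
        have := Submodule.eq_bot_of_le_smul_of_le_jacobson_bot (maximalIdeal R) U hUfg hle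
          (IsLocalRing.maximalIdeal_le_jacobson _)
        rw [this] at hyU
        exact hy0 ((Submodule.mem_bot _).mp hyU)
      have hz0 : (Submodule.Quotient.mk z : QuotSMulTop x M) ≠ 0 := by
        rwa [Ne, Submodule.Quotient.mk_eq_zero]
      obtain ⟨q, hq, hqz⟩ := exists_le_isAssociatedPrime_of_isNoetherianRing R
        (Submodule.Quotient.mk z : QuotSMulTop x M) hz0
      have hpq : p ≤ q := by
        intro a ha
        apply hqz
        rw [Submodule.mem_colon_singleton, Submodule.mem_bot, ← Submodule.Quotient.mk_smul,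
          hzU a ha, Submodule.Quotient.mk_zero]
      have hxq : x ∈ q := by
        apply hqz
        rw [Submodule.mem_colon_singleton, Submodule.mem_bot, ← Submodule.Quotient.mk_smul,
          Submodule.Quotient.mk_eq_zero]
        exact Submodule.smul_mem_pointwise_smul _ _ _ Submodule.mem_top
      have hih := ih (QuotSMulTop x M) ⟨rs', by simpa using hlen,
        fun r hr => hmem r (by simp [hr]), hreg.2⟩ q hq
      have h3 := ringKrullDim_quotient_add_one_le hpq hxq hxp
      refine le_trans ?_ h3
      push_cast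
      gcongr

omit [IsLocalRing R] in
/-- Prime avoidance: an ideal `a` not contained in any associated prime of `M` or `N` contains an
element regular on both `M` and `N`. -/
lemma exists_regular_mem [IsNoetherianRing R] (M N : Type u) [AddCommGroup M] [Module R M]
    [Module.Finite R M] [AddCommGroup N] [Module R N] [Module.Finite R N] (a : Ideal R)
    (hM : ∀ p : Ideal R, IsAssociatedPrime p M → ¬ a ≤ p)
    (hN : ∀ p : Ideal R, IsAssociatedPrime p N → ¬ a ≤ p) :
    ∃ s ∈ a, IsSMulRegular M s ∧ IsSMulRegular N s := by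
  have hfin : (associatedPrimes R (M × N)).Finite := associatedPrimes.finite R (M × N)
  have h1 : ¬ ((a : Set R) ⊆ ⋃ p ∈ associatedPrimes R (M × N), (p : Set R)) := by
    rw [Ideal.subset_union_prime_finite (f := fun p : Ideal R => p) hfin ⊤ ⊤
      (fun p hp _ _ => IsAssociatedPrime.isPrime hp)]
    rintro ⟨p, hp, hap⟩
    rw [associatedPrimes.prod] at hp
    rcases hp with hp | hp
    · exact hM p hp hap
    · exact hN p hp hap
  rw [Set.not_subset] at h1
  obtain ⟨s, hsa, hs⟩ := h1
  rw [associatedPrimes.prod] at hs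
  refine ⟨s, hsa, ?_, ?_⟩
  · by_contra hcon
    apply hs
    have : s ∈ ⋃ p ∈ associatedPrimes R M, (p : Set R) := by
      rw [biUnion_associatedPrimes_eq_compl_regular]
      exact hcon
    simp only [Set.mem_iUnion] at this ⊢
    obtain ⟨p, hp, hsp⟩ := this
    exact ⟨p, Or.inl hp, hsp⟩
  · by_contra hcon
    apply hs
    have : s ∈ ⋃ p ∈ associatedPrimes R N, (p : Set R) := by
      rw [biUnion_associatedPrimes_eq_compl_regular]
      exact hcon
    simp only [Set.mem_iUnion] at this ⊢
    obtain ⟨p, hp, hsp⟩ := this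
    exact ⟨p, Or.inr hp, hsp⟩


lemma exists_nat_eq {x : WithBot ℕ∞} (h0 : 0 ≤ x) {c : ℕ} (hc : x ≤ c) : ∃ k : ℕ, x = k := by
  induction x using WithBot.recBotCoe with
  | bot => simp at h0
  | coe x =>
    induction x using ENat.recTopCoe with
    | top =>
      exfalso
      have h : ((⊤ : ℕ∞) : WithBot ℕ∞) ≤ ((c : ℕ∞) : WithBot ℕ∞) := hc
      rw [WithBot.coe_le_coe] at h
      exact absurd h (by simp)
    | coe n => exact ⟨n, rfl⟩

/-- In a local ring: an ideal `a ≤ m` with `dim R/a + n ≤ c` contains a sequence of length `n` which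
is regular on two given modules of depth at least `c`. -/
lemma exists_isRegular_of_dim_le [IsNoetherianRing R] (a : Ideal R) (ha : a ≤ maximalIdeal R)
    (n : ℕ) : ∀ (c : ℕ) (M N : Type u) [AddCommGroup M] [Module R M] [Nontrivial M]
      [Module.Finite R M] [AddCommGroup N] [Module R N] [Nontrivial N] [Module.Finite R N]
      (_ : DepthGE R M c) (_ : DepthGE R N c) (_ : ringKrullDim (R ⧸ a) + n ≤ c),
      ∃ rs : List R, rs.length = n ∧ (∀ r ∈ rs, r ∈ a) ∧ IsRegular M rs ∧ IsRegular N rs := by
  have hane : a ≠ ⊤ := fun h => (IsLocalRing.maximalIdeal.isMaximal R).ne_top (top_le_iff.mp (h ▸ ha))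
  have hnt : Nontrivial (R ⧸ a) := Ideal.Quotient.nontrivial_iff.mpr hane
  have h0 : 0 ≤ ringKrullDim (R ⧸ a) := ringKrullDim_nonneg_of_nontrivial
  induction n with
  | zero =>
    intro c M N _ _ _ _ _ _ _ _ _ _ _
    exact ⟨[], rfl, by simp, IsRegular.nil R M, IsRegular.nil R N⟩
  | succ n ih =>
    intro c M N _ _ _ _ _ _ _ _ hM hN hdim
    have hdc : ringKrullDim (R ⧸ a) ≤ c := by
      refine le_trans ?_ hdim
      exact le_add_of_nonneg_right (by exact_mod_cast Nat.zero_le _)
    obtain ⟨k, hk⟩ := exists_nat_eq h0 hdc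
    rw [hk] at hdim
    have hkc : k + (n + 1) ≤ c := by exact_mod_cast hdim
    obtain ⟨c', rfl⟩ : ∃ c', c = c' + 1 := ⟨c - 1, by omega⟩
    have key : ∀ (L : Type u) [AddCommGroup L] [Module R L] [Nontrivial L] [Module.Finite R L]
        (_ : DepthGE R L (c' + 1)) (p : Ideal R), IsAssociatedPrime p L → ¬ a ≤ p := by
      intro L _ _ _ _ hL p hp hap
      have h1 := le_dim_of_associatedPrime _ L hL p hp
      have h2 := ringKrullDim_quotient_anti hap
      rw [hk] at h2
      have h3 : ((c' + 1 : ℕ) : WithBot ℕ∞) ≤ (k : ℕ) := h1.trans h2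
      have h4 : c' + 1 ≤ k := by exact_mod_cast h3
      omega
    obtain ⟨s, hsa, hsM, hsN⟩ := exists_regular_mem M N a (key M hM) (key N hN)
    have hs := ha hsa
    have := nontrivial_quotSMulTop (M := M) hs
    have := nontrivial_quotSMulTop (M := N) hs
    obtain ⟨rs, hlen, hmem, h1, h2⟩ := ih c' (QuotSMulTop s M) (QuotSMulTop s N)
      (hM.quotSMulTop hs hsM) (hN.quotSMulTop hs hsN) (by
        rw [hk]
        exact_mod_cast (by omega : k + n ≤ c'))
    refine ⟨s :: rs, by simp [hlen], ?_, ?_, ?_⟩
    · intro r hr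
      rcases List.mem_cons.mp hr with rfl | hr
      · exact hsa
      · exact hmem r hr
    · exact IsRegular.cons hsM h1
    · exact IsRegular.cons hsN h2

lemma ringKrullDim_quotient_le_add [IsNoetherianRing R] (K : Ideal R) (hK : K ≤ maximalIdeal R)
    (xs : List R) (hxs : ∀ r ∈ xs, r ∈ maximalIdeal R) :
    ringKrullDim (R ⧸ K) ≤ ringKrullDim (R ⧸ (K ⊔ Ideal.ofList xs)) + xs.length := by
  classical
  have hKne : K ≠ ⊤ := fun h =>
    (IsLocalRing.maximalIdeal.isMaximal R).ne_top (top_le_iff.mp (h ▸ hK))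
  have : Nontrivial (R ⧸ K) := Ideal.Quotient.nontrivial_iff.mpr hKne
  have : IsLocalRing (R ⧸ K) := IsLocalRing.of_surjective' (Ideal.Quotient.mk K)
    Ideal.Quotient.mk_surjective
  let s : Finset (R ⧸ K) := (xs.map (Ideal.Quotient.mk K)).toFinset
  have hs : (s : Set (R ⧸ K)) ⊆ Ring.jacobson (R ⧸ K) := by
    intro y hy
    simp only [s, List.coe_toFinset, List.mem_map, Set.mem_ofPred_eq] at hy
    obtain ⟨r, hr, rfl⟩ := hy
    have h1 : Ideal.Quotient.mk K r ∈ maximalIdeal (R ⧸ K) := by
      rw [IsLocalRing.mem_maximalIdeal, mem_nonunits_iff]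
      intro hu
      obtain ⟨b, hb⟩ := hu.exists_right_inv
      obtain ⟨b, rfl⟩ := Ideal.Quotient.mk_surjective b
      rw [← map_mul, ← map_one (Ideal.Quotient.mk K), Ideal.Quotient.eq] at hb
      have h2 := hK hb
      have h3 : r * b ∈ maximalIdeal R := Ideal.mul_mem_right _ _ (hxs r hr)
      have h4 : (1 : R) ∈ maximalIdeal R := by
        have := Ideal.sub_mem _ h3 h2
        rwa [sub_sub_cancel] at this
      exact (IsLocalRing.maximalIdeal.isMaximal R).ne_top ((Ideal.eq_top_iff_one _).mpr h4)
    rw [IsLocalRing.ringJacobson_eq_maximalIdeal]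
    exact h1
  have h1 := ringKrullDim_le_ringKrullDim_quotient_add_card s hs
  refine h1.trans ?_
  have h2 : (s.card : WithBot ℕ∞) ≤ xs.length := by
    have : s.card ≤ xs.length := (List.toFinset_card_le _).trans (by simp)
    exact_mod_cast this
  have h3 : ringKrullDim ((R ⧸ K) ⧸ Ideal.span (s : Set (R ⧸ K))) ≤
      ringKrullDim (R ⧸ (K ⊔ Ideal.ofList xs)) := by
    let f : R ⧸ (K ⊔ Ideal.ofList xs) →+* (R ⧸ K) ⧸ Ideal.span (s : Set (R ⧸ K)) :=
      Ideal.Quotient.lift _ ((Ideal.Quotient.mk _).comp (Ideal.Quotient.mk K)) (by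
        intro a ha
        have hle : K ⊔ Ideal.ofList xs ≤ RingHom.ker ((Ideal.Quotient.mk
            (Ideal.span (s : Set (R ⧸ K)))).comp (Ideal.Quotient.mk K)) := by
          refine sup_le ?_ (Ideal.span_le.mpr ?_)
          · intro b hb
            rw [RingHom.mem_ker, RingHom.comp_apply, Ideal.Quotient.eq_zero_iff_mem.mpr hb, map_zero]
          · intro b hb
            simp only [SetLike.mem_coe, RingHom.mem_ker, RingHom.comp_apply]
            rw [Ideal.Quotient.eq_zero_iff_mem]
            apply Ideal.subset_span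
            simp only [s, List.coe_toFinset, List.mem_map, Set.mem_ofPred_eq]
            exact ⟨b, hb, rfl⟩
        exact hle ha)
    refine ringKrullDim_le_of_surjective f ?_
    apply Ideal.Quotient.lift_surjective_of_surjective
    exact (Ideal.Quotient.mk_surjective).comp Ideal.Quotient.mk_surjective
  gcongr

/-- A sequence cutting the dimension down suitably is regular on every module of large depth. -/
lemma isRegular_of_dim_le [IsNoetherianRing R] (xs : List R) (hxs : ∀ r ∈ xs, r ∈ maximalIdeal R) :
    ∀ (c : ℕ) (J : Ideal R) (_ : J ≤ maximalIdeal R) (M : Type u) [AddCommGroup M] [Module R M]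
      [Nontrivial M] [Module.Finite R M]
      (_ : DepthGE R M c) (_ : J ≤ Module.annihilator R M)
      (_ : ringKrullDim (R ⧸ (J ⊔ Ideal.ofList xs)) + xs.length ≤ c),
      IsRegular M xs := by
  induction xs with
  | nil =>
    intro c J _ M _ _ _ _ _ _ _
    exact IsRegular.nil R M
  | cons x xs ih =>
    intro c J hJm M _ _ _ _ hM hJ hdim
    have hx : x ∈ maximalIdeal R := hxs x (by simp)
    have hxs' : ∀ r ∈ xs, r ∈ maximalIdeal R := fun r hr => hxs r (by simp [hr])
    have hofl : Ideal.ofList (x :: xs) = Ideal.span {x} ⊔ Ideal.ofList xs := by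
      simp [Ideal.ofList_cons]
    have hJ' : J ⊔ Ideal.ofList (x :: xs) = (J ⊔ Ideal.span {x}) ⊔ Ideal.ofList xs := by
      rw [hofl, sup_assoc]
    have hlem : (J ⊔ Ideal.span {x}) ⊔ Ideal.ofList xs ≤ maximalIdeal R := by
      refine sup_le (sup_le hJm ?_) ?_
      · rwa [Ideal.span_singleton_le_iff_mem]
      · exact Ideal.span_le.mpr (fun r hr => hxs' r hr)
    have hne : (J ⊔ Ideal.span {x}) ⊔ Ideal.ofList xs ≠ ⊤ := fun h =>
      (IsLocalRing.maximalIdeal.isMaximal R).ne_top (top_le_iff.mp (h ▸ hlem))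
    have hnt : Nontrivial (R ⧸ ((J ⊔ Ideal.span {x}) ⊔ Ideal.ofList xs)) :=
      Ideal.Quotient.nontrivial_iff.mpr hne
    have h0 : 0 ≤ ringKrullDim (R ⧸ ((J ⊔ Ideal.span {x}) ⊔ Ideal.ofList xs)) :=
      ringKrullDim_nonneg_of_nontrivial
    rw [hJ'] at hdim
    obtain ⟨k, hk⟩ := exists_nat_eq h0 (c := c) (by
      refine le_trans ?_ hdim
      exact le_add_of_nonneg_right (by exact_mod_cast Nat.zero_le _))
    rw [hk] at hdim
    have hkc : k + (xs.length + 1) ≤ c := by
      have : ((k : ℕ) : WithBot ℕ∞) + ((xs.length + 1 : ℕ) : WithBot ℕ∞) ≤ c := by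
        simpa using hdim
      exact_mod_cast this
    obtain ⟨c', rfl⟩ : ∃ c', c = c' + 1 := ⟨c - 1, by omega⟩
    -- dimension of `R/(J + x)`
    have hdJx : ringKrullDim (R ⧸ (J ⊔ Ideal.span {x})) ≤ (k + xs.length : ℕ) := by
      rw [Nat.cast_add, ← hk]
      exact ringKrullDim_quotient_le_add (J ⊔ Ideal.span {x}) (sup_le hJm
        ((Ideal.span_singleton_le_iff_mem _).mpr hx)) xs hxs'
    have hxreg : IsSMulRegular M x := by
      by_contra hcon
      have : x ∈ ⋃ p ∈ associatedPrimes R M, (p : Set R) := by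
        rw [biUnion_associatedPrimes_eq_compl_regular]
        exact hcon
      simp only [Set.mem_iUnion] at this
      obtain ⟨p, hp, hxp⟩ := this
      have hp' : IsAssociatedPrime p M := hp
      have h1 := le_dim_of_associatedPrime _ M hM p hp'
      have h2 : J ⊔ Ideal.span {x} ≤ p := by
        refine sup_le (hJ.trans ?_) ?_
        · have := hp'.annihilator_le
          rwa [Submodule.annihilator_top] at this
        · rwa [Ideal.span_singleton_le_iff_mem]
      have h3 : ((c' + 1 : ℕ) : WithBot ℕ∞) ≤ (k + xs.length : ℕ) :=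
        h1.trans ((ringKrullDim_quotient_anti h2).trans hdJx)
      have h4 : c' + 1 ≤ k + xs.length := by exact_mod_cast h3
      omega
    have := nontrivial_quotSMulTop (M := M) hx
    refine IsRegular.cons hxreg ?_
    refine ih hxs' c' (J ⊔ Ideal.span {x}) (le_sup_left.trans hlem) (QuotSMulTop x M)
      (hM.quotSMulTop hx hxreg) ?_ ?_
    · refine sup_le ?_ ?_
      · intro a ha
        rw [Module.mem_annihilator]
        intro m
        obtain ⟨m, rfl⟩ := Submodule.Quotient.mk_surjective _ m
        have := hJ ha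
        rw [Module.mem_annihilator] at this
        rw [← Submodule.Quotient.mk_smul, this m, Submodule.Quotient.mk_zero]
      · rw [Ideal.span_singleton_le_iff_mem, Module.mem_annihilator]
        intro m
        obtain ⟨m, rfl⟩ := Submodule.Quotient.mk_surjective _ m
        rw [← Submodule.Quotient.mk_smul, Submodule.Quotient.mk_eq_zero]
        exact Submodule.smul_mem_pointwise_smul _ _ _ Submodule.mem_top
    · rw [hk]
      exact_mod_cast (by omega : k + xs.length ≤ c')

end Pool.Agent.W_cbb711
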