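import Pool.Agent.W_cbb711.Depth

set_option autoImplicit false

universe u

open IsLocalRing RingTheory.Sequence Ideal Pointwise

namespace Pool.Agent.W_cbb711

lemma height_add_dim_le {R : Type u} [CommRing R] (p : PrimeSpectrum R) :
    ((Order.height p + Order.coheight p : ℕ∞) : WithBot ℕ∞) ≤ ringKrullDim R := by
  have : Nonempty (PrimeSpectrum R) := ⟨p⟩
  rw [ringKrullDim, Order.krullDim_eq_iSup_height_add_coheight_of_nonempty]
  exact WithBot.coe_le_coe.mpr (le_iSup (fun p : PrimeSpectrum R => Order.height p + Order.coheight p) p)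

lemma dim_quotient_add_le {R : Type u} [CommRing R] {d : ℕ} (hd : ringKrullDim R = d)
    (a : Ideal R) (ha : a ≠ ⊤) (n : ℕ) (h : ∀ (p : Ideal R) [p.IsPrime], a ≤ p → (n : ℕ∞) ≤ p.height) :
    ringKrullDim (R ⧸ a) + n ≤ d := by
  have key : ∀ l : LTSeries (PrimeSpectrum.zeroLocus (a : Set R)), l.length + n ≤ d := by
    intro l
    let l' : LTSeries (PrimeSpectrum R) := l.map Subtype.val (fun _ _ h => h)
    have h1 : (l'.length : ℕ∞) ≤ Order.coheight l'.head := Order.length_le_coheight le_rfl
    have h2 := height_add_dim_le l'.head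
    have h3 : (n : ℕ∞) ≤ Order.height l'.head := by
      rw [← PrimeSpectrum.height_eq_orderHeight]
      exact h l'.head.asIdeal l.head.2
    rw [hd] at h2
    have h4 : Order.height l'.head + Order.coheight l'.head ≤ (d : ℕ∞) := by
      have : ((Order.height l'.head + Order.coheight l'.head : ℕ∞) : WithBot ℕ∞) ≤ ((d : ℕ∞) : WithBot ℕ∞) := h2
      exact WithBot.coe_le_coe.mp this
    have h5 : (n : ℕ∞) + l'.length ≤ d := (add_le_add h3 h1).trans h4
    have h6 : n + l'.length ≤ d := by exact_mod_cast h5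
    have h7 : l'.length = l.length := rfl
    omega
  have hnt : Nontrivial (R ⧸ a) := Ideal.Quotient.nontrivial_iff.mpr ha
  obtain ⟨m, hm, ham⟩ := Ideal.exists_le_maximal a ha
  have hn : n ≤ d := by
    have := key (RelSeries.singleton _ ⟨⟨m, hm.isPrime⟩, ham⟩)
    simpa using this
  have : ringKrullDim (R ⧸ a) ≤ ((d - n : ℕ) : WithBot ℕ∞) := by
    rw [ringKrullDim_quotient, Order.krullDim]
    refine iSup_le fun l => ?_
    have := key l
    exact_mod_cast (by omega : l.length ≤ d - n)
  calc ringKrullDim (R ⧸ a) + n ≤ ((d - n : ℕ) : WithBot ℕ∞) + n := by gcongr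
    _ = d := by
      have : ((d - n : ℕ) : WithBot ℕ∞) + (n : ℕ) = ((d - n + n : ℕ) : WithBot ℕ∞) := by push_cast; rfl
      rw [this, Nat.sub_add_cancel hn]

section

variable {R : Type u} [CommRing R] [IsLocalRing R] [IsNoetherianRing R]

/-- An ideal not contained in any prime of height `≤ k` contains a sequence of length `k + 1`
regular on two given maximal Cohen-Macaulay modules. -/
lemma exists_seq {d : ℕ} (hd : ringKrullDim R = d) (k : ℕ) (a : Ideal R) (ha : a ≠ ⊤)
    (h : ∀ (p : Ideal R) [p.IsPrime], p.height ≤ k → ¬ a ≤ p)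
    (M N : Type u) [AddCommGroup M] [Module R M] [Nontrivial M]
    [Module.Finite R M] [AddCommGroup N] [Module R N] [Nontrivial N] [Module.Finite R N]
    (hM : DepthGE R M d) (hN : DepthGE R N d) :
    ∃ rs : List R, rs.length = k + 1 ∧ (∀ r ∈ rs, r ∈ a) ∧ IsRegular M rs ∧ IsRegular N rs := by
  refine exists_isRegular_of_dim_le a (IsLocalRing.le_maximalIdeal ha) (k + 1) d M N hM hN ?_
  refine dim_quotient_add_le hd a ha (k + 1) ?_
  intro p hp hap
  by_contra hcon
  push Not at hcon
  refine h p ?_ hap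
  have : p.height < ((k + 1 : ℕ) : ℕ∞) := hcon
  push_cast at this
  exact (ENat.lt_add_one_iff (ENat.natCast_ne_top k)).mp this

end

lemma IsRegular.two {R M : Type u} [CommRing R] [AddCommGroup M] [Module R M] {s t : R}
    {l : List R} (h : IsRegular M (s :: t :: l)) {a b : M} (hab : t • a = s • b) :
    ∃ c, a = s • c := by
  rw [isRegular_cons_iff, isRegular_cons_iff] at h
  have h2 := h.2.1
  have h3 : t • (Submodule.Quotient.mk a : QuotSMulTop s M) = 0 := by
    rw [← Submodule.Quotient.mk_smul, hab, Submodule.Quotient.mk_eq_zero]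
    exact Submodule.smul_mem_pointwise_smul _ _ _ Submodule.mem_top
  have h4 := isSMulRegular_iff_right_eq_zero_of_smul.mp h2 _ h3
  rw [Submodule.Quotient.mk_eq_zero, Submodule.mem_smul_pointwise_iff_exists] at h4
  obtain ⟨c, -, hc⟩ := h4
  exact ⟨c, hc.symm⟩

lemma IsRegular.one {R M : Type u} [CommRing R] [AddCommGroup M] [Module R M] {s : R}
    {l : List R} (h : IsRegular M (s :: l)) {a : M} (ha : s • a = 0) : a = 0 := by
  rw [isRegular_cons_iff] at h
  exact isSMulRegular_iff_right_eq_zero_of_smul.mp h.1 _ ha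

lemma exists_eq_pow_mul {A : Type u} [CommRing A] [IsLocalRing A] [IsNoetherianRing A] {x : A}
    (hx : maximalIdeal A = Ideal.span {x}) {a : A} (ha : a ≠ 0) :
    ∃ (n : ℕ) (u : A), IsUnit u ∧ a = x ^ n * u := by
  classical
  have h1 : ∃ k, a ∉ maximalIdeal A ^ k := by
    by_contra hcon
    push Not at hcon
    have h2 : a ∈ ⨅ i, maximalIdeal A ^ i := by
      simpa [Ideal.mem_iInf] using hcon
    rw [Ideal.iInf_pow_eq_bot_of_isLocalRing _ (IsLocalRing.maximalIdeal.isMaximal A).ne_top] at h2
    exact ha h2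
  have hk := Nat.find_spec h1
  have hk0 : Nat.find h1 ≠ 0 := by
    intro h0
    rw [h0] at hk
    simp at hk
  obtain ⟨m, hm⟩ := Nat.exists_eq_succ_of_ne_zero hk0
  have hm1 : a ∈ maximalIdeal A ^ m := by
    by_contra hcon
    have := Nat.find_min h1 (m := m) (by omega)
    exact this hcon
  rw [hx, Ideal.span_singleton_pow, Ideal.mem_span_singleton'] at hm1
  obtain ⟨u, hu⟩ := hm1
  refine ⟨m, u, ?_, by rw [← hu, mul_comm]⟩
  by_contra hnu
  have hum : u ∈ maximalIdeal A := hnu
  apply hk
  rw [hm, Nat.succ_eq_add_one, pow_succ', ← hu]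
  refine Ideal.mul_mem_mul hum ?_
  rw [hx, Ideal.span_singleton_pow]
  exact Ideal.mem_span_singleton_self _

lemma isDomain_of_span_singleton {A : Type u} [CommRing A] [IsLocalRing A] [IsNoetherianRing A]
    {x : A} (hx : maximalIdeal A = Ideal.span {x}) (hdim : 1 ≤ ringKrullDim A) : IsDomain A := by
  have hnil : ∀ n, x ^ n ≠ 0 := by
    intro n hn
    have : Ring.KrullDimLE 0 A := by
      apply Ring.KrullDimLE.mk₀
      intro p hp
      have hxp : x ∈ p := hp.mem_of_pow_mem n (by rw [hn]; exact p.zero_mem)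
      have hle : maximalIdeal A ≤ p := by
        rw [hx, Ideal.span_singleton_le_iff_mem]; exact hxp
      have := (IsLocalRing.maximalIdeal.isMaximal A).eq_of_le hp.ne_top hle
      rw [← this]; exact IsLocalRing.maximalIdeal.isMaximal A
    rw [Ring.krullDimLE_iff] at this
    have h2 := hdim.trans this
    exact absurd h2 (by decide)
  have : NoZeroDivisors A := ⟨fun {a b} hab => by
    by_contra hcon
    push Not at hcon
    obtain ⟨n, u, hu, rfl⟩ := exists_eq_pow_mul hx hcon.1
    obtain ⟨m, v, hv, rfl⟩ := exists_eq_pow_mul hx hcon.2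
    apply hnil (n + m)
    have h1 : x ^ (n + m) * (u * v) = 0 := by rw [← hab]; ring
    exact (hu.mul hv).mul_left_eq_zero.mp h1⟩
  exact NoZeroDivisors.to_isDomain A

lemma isDomain_of_maximalIdeal_eq_bot {A : Type u} [CommRing A] [IsLocalRing A]
    (h : maximalIdeal A = ⊥) : IsDomain A := by
  have := IsLocalRing.isField_iff_maximalIdeal_eq.mpr h
  exact this.isDomain


/-- The condition that the local rings at primes of height at most two are regular. -/
def RegUpToTwo (R : Type u) [CommRing R] : Prop :=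
  ∀ (p : Ideal R) [p.IsPrime], p.height ≤ 2 →
    ∃ s : Finset (Localization.AtPrime p),
      Ideal.span (s : Set (Localization.AtPrime p)) =
          IsLocalRing.maximalIdeal (Localization.AtPrime p) ∧
        (s.card : WithBot ℕ∞) ≤ ringKrullDim (Localization.AtPrime p)

lemma isDomain_localization {R : Type u} [CommRing R] [IsNoetherianRing R] (h2 : RegUpToTwo R)
    (p : Ideal R) [p.IsPrime] (hp : p.height ≤ 1) : IsDomain (Localization.AtPrime p) := by
  classical
  obtain ⟨s, hs, hcard⟩ := h2 p (hp.trans (by norm_num))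
  have hdim : ringKrullDim (Localization.AtPrime p) = (p.height : WithBot ℕ∞) :=
    IsLocalization.AtPrime.ringKrullDim_eq_height p _
  rw [hdim] at hcard
  have hsc : s.card ≤ 1 := by
    have h1 : ((s.card : ℕ∞) : WithBot ℕ∞) ≤ ((1 : ℕ∞) : WithBot ℕ∞) :=
      le_trans (by exact_mod_cast hcard) (WithBot.coe_le_coe.mpr hp)
    have h3 : (s.card : ℕ∞) ≤ 1 := WithBot.coe_le_coe.mp h1
    exact_mod_cast h3
  rcases Nat.le_one_iff_eq_zero_or_eq_one.mp hsc with h0 | h1
  · rw [Finset.card_eq_zero] at h0
    rw [h0] at hs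
    apply isDomain_of_maximalIdeal_eq_bot
    rw [← hs]; simp
  · obtain ⟨x, hx⟩ := Finset.card_eq_one.mp h1
    apply isDomain_of_span_singleton (x := x)
    · rw [← hs, hx]; simp
    · rw [hdim]
      have : ((1 : ℕ) : WithBot ℕ∞) ≤ (p.height : WithBot ℕ∞) := by rw [← h1]; exact hcard
      exact_mod_cast this

/-- A Cohen-Macaulay local ring whose localizations at primes of height at most one are
domains is a domain. -/
theorem isDomain_of_CM {R : Type u} [CommRing R] [IsLocalRing R] [IsNoetherianRing R] {d : ℕ}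
    (hd : ringKrullDim R = d) (hCM : DepthGE R R d)
    (h1 : ∀ (p : Ideal R) [p.IsPrime], p.height ≤ 1 → IsDomain (Localization.AtPrime p)) :
    IsDomain R := by
  classical
  obtain ⟨P, hP⟩ := associatedPrimes.nonempty R R
  have hP' : IsAssociatedPrime P R := hP
  have hPp := hP'.isPrime
  rw [isAssociatedPrime_iff] at hP'
  obtain ⟨-, b, hb⟩ := hP'
  have hPb : ∀ a, a ∈ P ↔ a * b = 0 := by
    intro a
    rw [hb, Submodule.mem_colon_singleton, Submodule.mem_bot, smul_eq_mul]
  have hb0 : b ≠ 0 := by
    intro h0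
    apply hPp.ne_top
    rw [Ideal.eq_top_iff_one, hPb, h0, mul_zero]
  suffices hPbot : P = ⊥ by
    rw [hPbot] at hPp
    exact IsDomain.of_bot_isPrime R
  by_contra hPne
  set B : Ideal R := Submodule.annihilator P with hB
  have hBP : ∀ v ∈ B, ∀ u ∈ P, v * u = 0 := by
    intro v hv u hu
    have := (Submodule.mem_annihilator.mp hv) u hu
    simpa using this
  have hloc : ∀ (p : Ideal R) [p.IsPrime], p.height ≤ (1 : ℕ) → ¬ P ⊔ B ≤ p := by
    intro p hp hht hle
    have hdom := h1 p (by exact_mod_cast hht)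
    by_cases hbz : algebraMap R (Localization.AtPrime p) b = 0
    · rw [IsLocalization.map_eq_zero_iff p.primeCompl] at hbz
      obtain ⟨⟨m, hm⟩, hmb⟩ := hbz
      exact hm (hle (Ideal.mem_sup_left ((hPb m).mpr hmb)))
    · -- every element of `P` dies in the localization
      have hkill : ∀ u ∈ P, ∃ m ∉ p, m * u = 0 := by
        intro u hu
        have h3 : algebraMap R (Localization.AtPrime p) u * algebraMap R (Localization.AtPrime p) b = 0 := by
          rw [← map_mul, (hPb u).mp hu, map_zero]
        have h4 := (mul_eq_zero.mp h3).resolve_right hbz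
        rw [IsLocalization.map_eq_zero_iff p.primeCompl] at h4
        obtain ⟨⟨m, hm⟩, hmb⟩ := h4
        exact ⟨m, hm, hmb⟩
      obtain ⟨S, hS⟩ := IsNoetherian.noetherian P
      have hall : ∃ m ∉ p, ∀ u ∈ S, m * u = 0 := by
        have : ∀ T : Finset R, (∀ u ∈ T, u ∈ P) → ∃ m ∉ p, ∀ u ∈ T, m * u = 0 := by
          intro T
          induction T using Finset.induction_on with
          | empty => intro _; exact ⟨1, fun h => hp.ne_top ((Ideal.eq_top_iff_one _).mpr h), by simp⟩
          | insert a T _ ih =>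
            intro hT
            obtain ⟨m, hm, hmT⟩ := ih (fun u hu => hT u (Finset.mem_insert_of_mem hu))
            obtain ⟨m', hm', hm'a⟩ := hkill a (hT a (Finset.mem_insert_self _ _))
            refine ⟨m * m', fun h => (hp.mem_or_mem h).elim hm hm', ?_⟩
            intro u hu
            rcases Finset.mem_insert.mp hu with rfl | hu
            · rw [mul_assoc, hm'a, mul_zero]
            · rw [mul_comm m, mul_assoc, hmT u hu, mul_zero]
        exact this S (fun u hu => by rw [← hS]; exact Submodule.subset_span hu)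
      obtain ⟨m, hm, hmS⟩ := hall
      apply hm
      apply hle
      apply Ideal.mem_sup_right
      rw [hB, Submodule.mem_annihilator]
      intro u hu
      rw [← hS] at hu
      induction hu using Submodule.span_induction with
      | mem x hx => exact hmS x hx
      | zero => simp
      | add x y _ _ hx hy => rw [smul_add, hx, hy, add_zero]
      | smul a x _ hx => rw [smul_comm, hx, smul_zero]
  -- a common argument
  have hfinal : ∀ s u v r : R, u ∈ P → v ∈ B → s = u + v → u = s * r →
      (∀ z : R, s * z = 0 → z = 0) → False := by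
    intro s u v r hu hv hs hur hreg
    have huv : u * v = 0 := by rw [mul_comm]; exact hBP v hv u hu
    have h3 : s * (s * (r * (1 - r))) = 0 := by
      have : s * (s * (r * (1 - r))) = (s * r) * (s - s * r) := by ring
      rw [this, ← hur, hs, add_sub_cancel_left, huv]
    have h4 := hreg _ (hreg _ h3)
    rcases IsLocalRing.isUnit_or_isUnit_one_sub_self r with hr | hr
    · have h5 : 1 - r = 0 := (hr.mul_right_eq_zero).mp h4
      have h6 : r = 1 := by rw [sub_eq_zero] at h5; exact h5.symm
      rw [h6, mul_one] at hur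
      have h7 := (hPb u).mp hu
      rw [hur] at h7
      exact hb0 (hreg b h7)
    · have h5 : r = 0 := (hr.mul_left_eq_zero).mp h4
      rw [h5, mul_zero] at hur
      rw [hur, zero_add] at hs
      apply hPne
      rw [eq_bot_iff]
      intro z hz
      rw [Ideal.mem_bot]
      apply hreg
      rw [hs]
      exact hBP v hv z hz
  by_cases htop : P ⊔ B = ⊤
  · have : (1 : R) ∈ P ⊔ B := by rw [htop]; trivial
    obtain ⟨u, hu, v, hv, huv⟩ := Submodule.mem_sup.mp this
    exact hfinal 1 u v u hu hv huv.symm (one_mul u).symm (fun z hz => by rwa [one_mul] at hz)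
  · obtain ⟨rs, hlen, hmem, hreg, -⟩ := exists_seq hd 1 (P ⊔ B) htop hloc R R hCM hCM
    match rs, hlen with
    | [s1, s2], _ =>
      obtain ⟨u1, hu1, v1, hv1, hs1⟩ := Submodule.mem_sup.mp (hmem s1 (by simp))
      obtain ⟨u2, hu2, v2, hv2, hs2⟩ := Submodule.mem_sup.mp (hmem s2 (by simp))
      have h3 : s2 • u1 = s1 • u2 := by
        have e1 : v2 * u1 = 0 := hBP v2 hv2 u1 hu1
        have e2 : v1 * u2 = 0 := hBP v1 hv1 u2 hu2
        rw [smul_eq_mul, smul_eq_mul, ← hs1, ← hs2]
        linear_combination e1 - e2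
      obtain ⟨r, hr⟩ := IsRegular.two hreg h3
      exact hfinal s1 u1 v1 r hu1 hv1 hs1.symm hr (fun z hz => IsRegular.one hreg hz)

end Pool.Agent.W_cbb711
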