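import Pool.Agent.W_cbb711.Domain

set_option autoImplicit false

universe u

open IsLocalRing RingTheory.Sequence Ideal Pointwise

namespace Pool.Agent.W_cbb711

/-- A module admitting a weakly regular sequence generating the maximal ideal is free. -/
theorem free_of_isWeaklyRegular (n : ℕ) : ∀ (A : Type u) [CommRing A] [IsLocalRing A]
    [IsNoetherianRing A] (M : Type u) [AddCommGroup M] [Module A M] [Module.Finite A M]
    (xs : List A) (_ : xs.length = n) (_ : Ideal.ofList xs = maximalIdeal A)
    (_ : IsWeaklyRegular M xs), Module.Free A M := by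
  induction n with
  | zero =>
    intro A _ _ _ M _ _ _ xs hlen hspan hreg
    rw [List.length_eq_zero_iff] at hlen
    rw [hlen, Ideal.ofList_nil] at hspan
    have hfield := IsLocalRing.isField_iff_maximalIdeal_eq.mpr hspan.symm
    let _ := hfield.toField
    infer_instance
  | succ n ih =>
    intro A _ _ _ M _ _ _ xs hlen hspan hreg
    match xs, hlen with
    | x :: xs, hlen =>
      have hx : x ∈ maximalIdeal A := by
        rw [← hspan, Ideal.ofList_cons]
        exact Ideal.mem_sup_left (Ideal.mem_span_singleton_self x)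
      rw [isWeaklyRegular_cons_iff] at hreg
      have := Module.finitePresentation_of_finite A M
      rw [← Module.free_quotSMulTop_iff_free (x := x) A M
        ((IsLocalRing.maximalIdeal_le_jacobson _) hx) hreg.1]
      have hne : Ideal.span {x} ≠ (⊤ : Ideal A) := by
        intro h
        rw [Ideal.span_singleton_eq_top] at h
        exact hx h
      have : Nontrivial (A ⧸ Ideal.span {x}) := Ideal.Quotient.nontrivial_iff.mpr hne
      have hloc : IsLocalRing (A ⧸ Ideal.span {x}) :=
        IsLocalRing.of_surjective' (Ideal.Quotient.mk _) Ideal.Quotient.mk_surjective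
      have := Module.Finite.of_restrictScalars_finite A (A ⧸ Ideal.span {x}) (QuotSMulTop x M)
      refine ih (A ⧸ Ideal.span {x}) (QuotSMulTop x M)
        (xs.map (algebraMap A (A ⧸ Ideal.span {x}))) (by simpa using hlen) ?_ ?_
      · rw [← Ideal.map_ofList]
        have h1 : Ideal.map (algebraMap A (A ⧸ Ideal.span {x})) (maximalIdeal A) =
            maximalIdeal (A ⧸ Ideal.span {x}) := by
          apply IsLocalRing.eq_maximalIdeal
          have := Ideal.map_eq_top_or_isMaximal_of_surjective
            (algebraMap A (A ⧸ Ideal.span {x})) Ideal.Quotient.mk_surjective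
            (IsLocalRing.maximalIdeal.isMaximal A)
          rcases this with h | h
          · exfalso
            rw [Ideal.eq_top_iff_one] at h
            have h2 := Ideal.mem_map_iff_of_surjective (algebraMap A (A ⧸ Ideal.span {x}))
              Ideal.Quotient.mk_surjective |>.mp h
            obtain ⟨a, ha, ha1⟩ := h2
            have h3 : a - 1 ∈ Ideal.span {x} := by
              rw [← Ideal.Quotient.eq]
              simpa using ha1
            have h4 : a - 1 ∈ maximalIdeal A :=
              (Ideal.span_singleton_le_iff_mem _).mpr hx h3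
            have h5 : (1 : A) ∈ maximalIdeal A := by
              have := Ideal.sub_mem _ ha h4
              rwa [sub_sub_cancel] at this
            exact (IsLocalRing.maximalIdeal.isMaximal A).ne_top ((Ideal.eq_top_iff_one _).mpr h5)
          · exact h
        rw [← h1, ← hspan, Ideal.ofList_cons, Ideal.map_sup]
        have h6 : Ideal.map (algebraMap A (A ⧸ Ideal.span {x})) (Ideal.span {x}) = ⊥ := by
          rw [Ideal.Quotient.algebraMap_eq, Ideal.map_quotient_self]
        rw [h6, bot_sup_eq]
      · rw [isWeaklyRegular_map_algebraMap_iff]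
        exact hreg.2

/-- A free ideal of a domain is principal. -/
lemma exists_span_of_free {A : Type u} [CommRing A] [IsDomain A] (J : Ideal A)
    [Module.Free A J] : ∃ g, J = Ideal.span {g} := by
  classical
  let b := Module.Free.chooseBasis A J
  have hsub : Subsingleton (Module.Free.ChooseBasisIndex A J) := by
    constructor
    intro i j
    by_contra hij
    have hli := b.linearIndependent
    have h1 : (b j : A) • b i - (b i : A) • b j = 0 := by
      apply Subtype.ext
      simp [mul_comm]
    rw [linearIndependent_iff'] at hli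
    have h2 := hli {i, j} (fun k => if k = i then (b j : A) else -(b i : A)) (by
      rw [Finset.sum_pair hij]
      simp only [if_true, if_neg (Ne.symm hij), neg_smul]
      rw [← sub_eq_add_neg]; exact h1) i (by simp)
    simp only [if_true] at h2
    have : b j = 0 := Subtype.ext h2
    exact b.ne_zero j this
  rcases isEmpty_or_nonempty (Module.Free.ChooseBasisIndex A J) with hemp | ⟨⟨i⟩⟩
  · refine ⟨0, ?_⟩
    have : Subsingleton J := b.repr.toEquiv.subsingleton
    rw [Ideal.span_singleton_zero]
    rw [eq_bot_iff]
    intro z hz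
    have := Subsingleton.elim (⟨z, hz⟩ : J) 0
    simpa using congrArg Subtype.val this
  · refine ⟨(b i : A), ?_⟩
    apply le_antisymm
    · intro z hz
      let _ : Unique (Module.Free.ChooseBasisIndex A J) := ⟨⟨i⟩, fun j => Subsingleton.elim _ _⟩
      have h1 := b.sum_repr ⟨z, hz⟩
      rw [Fintype.sum_unique] at h1
      have h2 := congrArg Subtype.val h1
      rw [Ideal.mem_span_singleton']
      refine ⟨b.repr ⟨z, hz⟩ default, ?_⟩
      have h3 : (default : Module.Free.ChooseBasisIndex A J) = i := Subsingleton.elim _ _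
      rw [h3] at h2 ⊢
      simpa using h2
    · rw [Ideal.span_singleton_le_iff_mem]
      exact (b i).2

lemma one_le_of_two_le_add_one {a : WithBot ℕ∞} (h : 2 ≤ a + 1) : 1 ≤ a := by
  induction a using WithBot.recBotCoe with
  | bot => simp at h
  | coe x =>
    induction x using ENat.recTopCoe with
    | top => exact_mod_cast (le_top : (1 : ℕ∞) ≤ ⊤)
    | coe n =>
      have h1 : ((2 : ℕ) : WithBot ℕ∞) ≤ ((n + 1 : ℕ) : WithBot ℕ∞) := by
        push_cast
        exact h
      have h2 : 2 ≤ n + 1 := by exact_mod_cast h1
      have h3 : 1 ≤ n := by omega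
      exact_mod_cast h3

lemma maximalIdeal_quotient {A : Type u} [CommRing A] [IsLocalRing A] (x : A)
    [IsLocalRing (A ⧸ Ideal.span {x})] (hx : x ∈ maximalIdeal A) :
    Ideal.map (Ideal.Quotient.mk (Ideal.span {x})) (maximalIdeal A) =
            maximalIdeal (A ⧸ Ideal.span {x}) := by
  apply IsLocalRing.eq_maximalIdeal
  have := Ideal.map_eq_top_or_isMaximal_of_surjective
    (Ideal.Quotient.mk (Ideal.span {x})) Ideal.Quotient.mk_surjective
    (IsLocalRing.maximalIdeal.isMaximal A)
  rcases this with h | h
  · exfalso
    rw [Ideal.eq_top_iff_one] at h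
    have h2 := Ideal.mem_map_iff_of_surjective (Ideal.Quotient.mk (Ideal.span {x}))
      Ideal.Quotient.mk_surjective |>.mp h
    obtain ⟨a, ha, ha1⟩ := h2
    have h3 : a - 1 ∈ Ideal.span {x} := by
      rw [← Ideal.Quotient.eq]
      simpa using ha1
    have h4 : a - 1 ∈ maximalIdeal A :=
      (Ideal.span_singleton_le_iff_mem _).mpr hx h3
    have h5 : (1 : A) ∈ maximalIdeal A := by
      have := Ideal.sub_mem _ ha h4
      rwa [sub_sub_cancel] at this
    exact (IsLocalRing.maximalIdeal.isMaximal A).ne_top ((Ideal.eq_top_iff_one _).mpr h5)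
  · exact h

lemma dim_quotient_of_two {A : Type u} [CommRing A] [IsLocalRing A] [IsNoetherianRing A]
    {x : A} (hx : x ∈ maximalIdeal A) (hdim : 2 ≤ ringKrullDim A) :
    1 ≤ ringKrullDim (A ⧸ Ideal.span {x}) := by
  apply one_le_of_two_le_add_one
  refine hdim.trans ?_
  rw [← IsLocalRing.maximalIdeal_height_eq_ringKrullDim]
  exact Ideal.height_le_ringKrullDim_quotient_add_one hx

lemma principal_of_sat {A : Type u} [CommRing A] [IsLocalRing A] [IsNoetherianRing A] [IsDomain A]
    {x y : A} (hxy : maximalIdeal A = Ideal.span {x, y}) (hdim : 2 ≤ ringKrullDim A) (J : Ideal A)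
    (hsat : ∀ t, (∀ z ∈ maximalIdeal A, z * t ∈ J) → t ∈ J) : ∃ g, J = Ideal.span {g} := by
  have hx : x ∈ maximalIdeal A := by rw [hxy]; exact Ideal.subset_span (by simp)
  have hy : y ∈ maximalIdeal A := by rw [hxy]; exact Ideal.subset_span (by simp)
  have key : ∀ u ∈ maximalIdeal A, 
      (maximalIdeal A ≤ Ideal.span {u}) → False := by
    intro u hu h
    have h1 := dim_quotient_of_two hu hdim
    have h2 : Ideal.span {u} = maximalIdeal A :=
      le_antisymm ((Ideal.span_singleton_le_iff_mem _).mpr hu) h
    rw [h2] at h1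
    have h3 : IsField (A ⧸ maximalIdeal A) := (Ideal.Quotient.maximal_ideal_iff_isField_quotient _).mp inferInstance
    rw [ringKrullDim_eq_zero_of_isField h3] at h1
    exact absurd h1 (by decide)
  have hx0 : x ≠ 0 := by
    intro h0
    apply key y hy
    rw [hxy, h0]
    rw [Ideal.span_le]
    intro z hz
    rcases hz with rfl | rfl
    · exact Ideal.zero_mem _
    · exact Ideal.mem_span_singleton_self _
  have hyx : y ∉ Ideal.span {x} := by
    intro h
    apply key x hx
    rw [hxy, Ideal.span_le]
    intro z hz
    rcases hz with rfl | rfl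
    · exact Ideal.mem_span_singleton_self _
    · exact h
  have hne : Ideal.span {x} ≠ (⊤ : Ideal A) := by
    intro h
    rw [Ideal.span_singleton_eq_top] at h
    exact hx h
  have : Nontrivial (A ⧸ Ideal.span {x}) := Ideal.Quotient.nontrivial_iff.mpr hne
  have hloc : IsLocalRing (A ⧸ Ideal.span {x}) :=
    IsLocalRing.of_surjective' (Ideal.Quotient.mk _) Ideal.Quotient.mk_surjective
  have hmax : maximalIdeal (A ⧸ Ideal.span {x}) = Ideal.span {Ideal.Quotient.mk _ y} := by
    rw [← maximalIdeal_quotient x hx, hxy, Ideal.map_span, Set.image_pair]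
    have : Ideal.Quotient.mk (Ideal.span {x}) x = 0 := by
      rw [Ideal.Quotient.eq_zero_iff_mem]; exact Ideal.mem_span_singleton_self _
    rw [this, Ideal.span_pair_comm, Ideal.span_pair_zero]
  have hD : IsDomain (A ⧸ Ideal.span {x}) :=
    isDomain_of_span_singleton hmax (dim_quotient_of_two hx hdim)
  have hfree : Module.Free A J := by
    refine free_of_isWeaklyRegular 2 A J [x, y] rfl ?_ ?_
    · rw [hxy, Ideal.ofList_cons, Ideal.ofList_singleton, Ideal.span_insert]
    · refine IsWeaklyRegular.cons ?_ (IsWeaklyRegular.cons ?_ (IsWeaklyRegular.nil _ _))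
      · rw [isSMulRegular_iff_right_eq_zero_of_smul]
        intro j hj
        apply Subtype.ext
        have h1 := congrArg Subtype.val hj
        simp only [SetLike.val_smul, smul_eq_mul, ZeroMemClass.coe_zero] at h1
        exact (mul_eq_zero.mp h1).resolve_left hx0
      · rw [isSMulRegular_iff_right_eq_zero_of_smul]
        intro i hi
        obtain ⟨i, rfl⟩ := Submodule.Quotient.mk_surjective _ i
        rw [← Submodule.Quotient.mk_smul, Submodule.Quotient.mk_eq_zero,
          Submodule.mem_smul_pointwise_iff_exists] at hi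
        obtain ⟨j, -, hj⟩ := hi
        have h1 : x * (j : A) = y * (i : A) := congrArg Subtype.val hj
        have h2 : Ideal.Quotient.mk (Ideal.span {x}) y * Ideal.Quotient.mk (Ideal.span {x}) (i : A) = 0 := by
          rw [← map_mul, ← h1, Ideal.Quotient.eq_zero_iff_mem]
          exact Ideal.mul_mem_right _ _ (Ideal.mem_span_singleton_self _)
        have h3 := (mul_eq_zero.mp h2).resolve_left (fun h => hyx (Ideal.Quotient.eq_zero_iff_mem.mp h))
        rw [Ideal.Quotient.eq_zero_iff_mem, Ideal.mem_span_singleton'] at h3
        obtain ⟨t, ht⟩ := h3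
        have h4 : y * t = j := by
          apply mul_left_cancel₀ hx0
          rw [h1, ← ht]; ring
        have h5 : t ∈ J := by
          apply hsat
          intro z hz
          rw [hxy, Ideal.mem_span_pair] at hz
          obtain ⟨a, b, rfl⟩ := hz
          have : (a * x + b * y) * t = a * (t * x) + b * (y * t) := by ring
          rw [this, ht, h4]
          exact J.add_mem (J.mul_mem_left _ i.2) (J.mul_mem_left _ j.2)
        rw [Submodule.Quotient.mk_eq_zero, Submodule.mem_smul_pointwise_iff_exists]
        refine ⟨⟨t, h5⟩, Submodule.mem_top, ?_⟩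
        apply Subtype.ext
        change x * t = i
        rw [← ht, mul_comm]
  exact exists_span_of_free J


lemma exists_common {R : Type u} [CommRing R] {I K p : Ideal R} [hp : p.IsPrime] (hI : I.FG)
    (h : ∀ i ∈ I, ∃ t ∉ p, t * i ∈ K) : ∃ s ∉ p, ∀ i ∈ I, s * i ∈ K := by
  classical
  obtain ⟨S, hS⟩ := hI
  have hall : ∃ m ∉ p, ∀ u ∈ S, m * u ∈ K := by
    have : ∀ T : Finset R, (∀ u ∈ T, u ∈ I) → ∃ m ∉ p, ∀ u ∈ T, m * u ∈ K := by
      intro T
      induction T using Finset.induction_on with
      | empty => intro _; exact ⟨1, fun h => hp.ne_top ((Ideal.eq_top_iff_one _).mpr h), by simp⟩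
      | insert a T _ ih =>
        intro hT
        obtain ⟨m, hm, hmT⟩ := ih (fun u hu => hT u (Finset.mem_insert_of_mem hu))
        obtain ⟨m', hm', hm'a⟩ := h a (hT a (Finset.mem_insert_self _ _))
        refine ⟨m * m', fun h => (hp.mem_or_mem h).elim hm hm', ?_⟩
        intro u hu
        rcases Finset.mem_insert.mp hu with rfl | hu
        · rw [mul_assoc]; exact K.mul_mem_left _ hm'a
        · rw [mul_comm m, mul_assoc]; exact K.mul_mem_left _ (hmT u hu)
    exact this S (fun u hu => by rw [← hS]; exact Submodule.subset_span hu)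
  obtain ⟨m, hm, hmS⟩ := hall
  refine ⟨m, hm, ?_⟩
  intro u hu
  rw [← hS] at hu
  induction hu using Submodule.span_induction with
  | mem x hx => exact hmS x hx
  | zero => simp
  | add x y _ _ hx hy => rw [mul_add]; exact K.add_mem hx hy
  | smul a x _ hx => rw [smul_eq_mul, mul_left_comm]; exact K.mul_mem_left _ hx

/-- A maximal Cohen-Macaulay ideal is locally principal at primes of height at most two. -/
theorem exists_locally_principal {R : Type u} [CommRing R] [IsLocalRing R] [IsNoetherianRing R]
    [IsDomain R] {d : ℕ} (hd : ringKrullDim R = d) (hCM : DepthGE R R d) (h2 : RegUpToTwo R)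
    (I : Ideal R) (hI : I ≠ ⊥) (hIM : DepthGE R I d) (p : Ideal R) [hp : p.IsPrime]
    (hht : p.height ≤ 2) :
    ∃ f ∈ I, f ≠ 0 ∧ ∃ s ∉ p, ∀ i ∈ I, ∃ r, s * i = r * f := by
  classical
  have hInt : Nontrivial I := by
    rw [Submodule.nontrivial_iff_ne_bot]; exact hI
  -- it suffices that the extension of `I` to the local ring is principal
  suffices hprin : ∃ g, Ideal.map (algebraMap R (Localization.AtPrime p)) I = Ideal.span {g} by
    obtain ⟨g, hg⟩ := hprin
    have hgI : g ∈ Ideal.map (algebraMap R (Localization.AtPrime p)) I := by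
      rw [hg]; exact Ideal.mem_span_singleton_self _
    obtain ⟨⟨⟨a, ha⟩, ⟨s, hs⟩⟩, has⟩ := (IsLocalization.mem_map_algebraMap_iff p.primeCompl _).mp hgI
    simp only at has
    have hspan : Ideal.map (algebraMap R (Localization.AtPrime p)) I =
        Ideal.span {algebraMap R (Localization.AtPrime p) a} := by
      rw [hg]
      apply le_antisymm
      · rw [Ideal.span_singleton_le_iff_mem, ← has, mul_comm]
        have hunit : IsUnit (algebraMap R (Localization.AtPrime p) s) :=
          IsLocalization.map_units _ (⟨s, hs⟩ : p.primeCompl)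
        obtain ⟨w, hw⟩ := hunit.exists_left_inv
        rw [Ideal.mem_span_singleton']
        exact ⟨w, by rw [← mul_assoc, hw, one_mul]⟩
      · rw [Ideal.span_singleton_le_iff_mem, ← has]
        exact Ideal.mul_mem_right _ _ (Ideal.mem_span_singleton_self _)
    have hinj : Function.Injective (algebraMap R (Localization.AtPrime p)) :=
      IsLocalization.injective _ p.primeCompl_le_nonZeroDivisors
    have ha0 : a ≠ 0 := by
      rintro rfl
      obtain ⟨z, hz, hz0⟩ := Submodule.exists_mem_ne_zero_of_ne_bot hI
      have h3 : algebraMap R (Localization.AtPrime p) z ∈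
          Ideal.map (algebraMap R (Localization.AtPrime p)) I := Ideal.mem_map_of_mem _ hz
      rw [hspan, map_zero, Ideal.span_singleton_zero, Ideal.mem_bot] at h3
      exact hz0 (hinj (by rw [h3, map_zero]))
    refine ⟨a, ha, ha0, ?_⟩
    have hcom : ∀ i ∈ I, ∃ t ∉ p, t * i ∈ Ideal.span {a} := by
      intro i hi
      have h3 : algebraMap R (Localization.AtPrime p) i ∈
          Ideal.map (algebraMap R (Localization.AtPrime p)) I := Ideal.mem_map_of_mem _ hi
      rw [hspan, Ideal.mem_span_singleton'] at h3
      obtain ⟨g', hg'⟩ := h3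
      obtain ⟨⟨r, ⟨t, ht⟩⟩, hrt⟩ := IsLocalization.surj p.primeCompl g'
      simp only at hrt
      refine ⟨t, ht, ?_⟩
      rw [Ideal.mem_span_singleton']
      refine ⟨r, hinj ?_⟩
      rw [map_mul, map_mul, ← hrt, ← hg']; ring
    obtain ⟨s, hs, hsI⟩ := exists_common (IsNoetherian.noetherian I) hcom
    refine ⟨s, hs, fun i hi => ?_⟩
    have := hsI i hi
    rw [Ideal.mem_span_singleton'] at this
    obtain ⟨r, hr⟩ := this
    exact ⟨r, hr.symm⟩
  -- principality
  have hdomloc : IsDomain (Localization.AtPrime p) :=
    IsLocalization.isDomain_localization p.primeCompl_le_nonZeroDivisors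
  obtain ⟨s, hs, hcard⟩ := h2 p hht
  have hdim : ringKrullDim (Localization.AtPrime p) = (p.height : WithBot ℕ∞) :=
    IsLocalization.AtPrime.ringKrullDim_eq_height p _
  have hcard' := hcard
  rw [hdim] at hcard
  have hsc : s.card ≤ 2 := by
    have h1 : ((s.card : ℕ∞) : WithBot ℕ∞) ≤ ((2 : ℕ∞) : WithBot ℕ∞) :=
      le_trans (by exact_mod_cast hcard) (WithBot.coe_le_coe.mpr hht)
    have h3 : (s.card : ℕ∞) ≤ 2 := WithBot.coe_le_coe.mp h1
    exact_mod_cast h3
  have hprin_case : (maximalIdeal (Localization.AtPrime p)).IsPrincipal →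
      ∃ g, Ideal.map (algebraMap R (Localization.AtPrime p)) I = Ideal.span {g} := by
    intro h
    have h3 : IsPrincipalIdealRing (Localization.AtPrime p) :=
      ((tfae_of_isNoetherianRing_of_isLocalRing_of_isDomain (Localization.AtPrime p)).out 0 4).mpr h
    obtain ⟨g, hg⟩ := (IsPrincipalIdealRing.principal
      (Ideal.map (algebraMap R (Localization.AtPrime p)) I)).principal
    exact ⟨g, hg⟩
  interval_cases hsn : s.card
  · apply hprin_case
    rw [Finset.card_eq_zero] at hsn
    rw [← hs, hsn]
    exact ⟨⟨0, by simp⟩⟩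
  · apply hprin_case
    obtain ⟨x, hx⟩ := Finset.card_eq_one.mp hsn
    rw [← hs, hx]
    exact ⟨⟨x, by simp [Ideal.submodule_span_eq]⟩⟩
  · obtain ⟨x, y, hxy, hsxy⟩ := Finset.card_eq_two.mp hsn
    have hp2 : ∀ (q : Ideal R) [q.IsPrime], q.height ≤ (1 : ℕ) → ¬ p ≤ q := by
      intro q hq hq1 hpq
      have h3 : p.height ≤ (1 : ℕ) := (Ideal.height_mono hpq).trans hq1
      have h4 : ((2 : ℕ∞) : WithBot ℕ∞) ≤ ((1 : ℕ∞) : WithBot ℕ∞) := by
        have hc2 : ((2 : ℕ∞) : WithBot ℕ∞) ≤ (p.height : WithBot ℕ∞) := hcard
        exact hc2.trans (WithBot.coe_le_coe.mpr h3)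
      have h5 : (2 : ℕ∞) ≤ 1 := WithBot.coe_le_coe.mp h4
      exact absurd h5 (by decide)
    apply principal_of_sat (x := x) (y := y)
    · rw [← hs, hsxy]; simp
    · exact_mod_cast hcard'
    · intro t ht
      obtain ⟨⟨a, ⟨w, hw⟩⟩, haw⟩ := IsLocalization.surj p.primeCompl t
      simp only at haw
      have hunit : IsUnit (algebraMap R (Localization.AtPrime p) w) :=
          IsLocalization.map_units _ (⟨w, hw⟩ : p.primeCompl)
      have hinj : Function.Injective (algebraMap R (Localization.AtPrime p)) :=
        IsLocalization.injective _ p.primeCompl_le_nonZeroDivisors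
      let K : Ideal R := Submodule.comap (LinearMap.mulRight R a) I
      have hK : ∀ z, z ∈ K ↔ z * a ∈ I := fun z => by
        simp [K, Submodule.mem_comap]
      have h3 : ∀ z ∈ p, ∃ u ∉ p, u * z ∈ K := by
        intro z hz
        have h4 : algebraMap R (Localization.AtPrime p) z ∈ maximalIdeal (Localization.AtPrime p) := by
          rw [← Localization.AtPrime.map_eq_maximalIdeal]
          exact Ideal.mem_map_of_mem _ hz
        have h5 := ht _ h4
        have h6 : algebraMap R (Localization.AtPrime p) (z * a) ∈
            Ideal.map (algebraMap R (Localization.AtPrime p)) I := by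
          rw [map_mul, ← haw, ← mul_assoc]
          exact Ideal.mul_mem_right _ _ h5
        rw [IsLocalization.mem_map_algebraMap_iff p.primeCompl] at h6
        obtain ⟨⟨⟨b, hb⟩, ⟨v, hv⟩⟩, hbv⟩ := h6
        refine ⟨v, hv, ?_⟩
        rw [hK]
        have h7 : z * a * v = b := hinj (by rw [map_mul]; exact hbv)
        have h8 : v * z * a = b := by rw [← h7]; ring
        rw [h8]; exact hb
      obtain ⟨u, hu, huK⟩ := exists_common (IsNoetherian.noetherian p) h3
      -- `u * a ∈ I` by depth
      have hua : u * a ∈ I := by
        obtain ⟨rs, hlen, hmem, hreg, hregI⟩ := exists_seq hd 1 p hp.ne_top hp2 R I hCM hIM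
        match rs, hlen with
        | [s1, s2], _ =>
          have e1 : s1 * (u * a) ∈ I := by
            have := (hK _).mp (huK s1 (hmem s1 (by simp)))
            have h9 : s1 * (u * a) = u * s1 * a := by ring
            rw [h9]; exact this
          have e2 : s2 * (u * a) ∈ I := by
            have := (hK _).mp (huK s2 (hmem s2 (by simp)))
            have h9 : s2 * (u * a) = u * s2 * a := by ring
            rw [h9]; exact this
          have e3 : s2 • (⟨s1 * (u * a), e1⟩ : I) = s1 • (⟨s2 * (u * a), e2⟩ : I) := by
            apply Subtype.ext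
            simp only [SetLike.mk_smul_mk, smul_eq_mul]
            ring
          obtain ⟨c, hc⟩ := IsRegular.two hregI e3
          have e4 : s1 * (u * a) = s1 * (c : R) := congrArg Subtype.val hc
          have e5 : s1 • (u * a - c) = 0 := by
            rw [smul_eq_mul, mul_sub, e4, sub_self]
          have e6 := IsRegular.one hreg e5
          have e7 : u * a = c := sub_eq_zero.mp e6
          rw [e7]; exact c.2
      have hunit2 : IsUnit (algebraMap R (Localization.AtPrime p) u) :=
          IsLocalization.map_units _ (⟨u, hu⟩ : p.primeCompl)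
      have h10 : algebraMap R (Localization.AtPrime p) (u * a) ∈
          Ideal.map (algebraMap R (Localization.AtPrime p)) I := Ideal.mem_map_of_mem _ hua
      rw [map_mul, ← haw] at h10
      have h11 := (Ideal.unit_mul_mem_iff_mem _ hunit2).mp h10
      exact (Ideal.mul_unit_mem_iff_mem _ hunit).mp h11

end Pool.Agent.W_cbb711
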