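import Pool.Agent.W_cbb711.Principal

set_option autoImplicit false

universe u

open IsLocalRing RingTheory.Sequence Ideal Pointwise

namespace Pool.Agent.W_cbb711

lemma IsRegular.three {R M : Type u} [CommRing R] [AddCommGroup M] [Module R M] {s t w : R}
    {l : List R} (h : IsRegular M (s :: t :: w :: l)) {a b c : M} (hab : w • a = t • b + s • c) :
    ∃ b' c', a = t • b' + s • c' := by
  rw [isRegular_cons_iff] at h
  have h3 : w • (Submodule.Quotient.mk a : QuotSMulTop s M) =
      t • (Submodule.Quotient.mk b : QuotSMulTop s M) := by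
    rw [← Submodule.Quotient.mk_smul, ← Submodule.Quotient.mk_smul, Submodule.Quotient.eq, hab,
      add_sub_cancel_left]
    exact Submodule.smul_mem_pointwise_smul _ _ _ Submodule.mem_top
  obtain ⟨c', hc'⟩ := IsRegular.two h.2 h3
  obtain ⟨b', rfl⟩ := Submodule.Quotient.mk_surjective _ c'
  rw [← Submodule.Quotient.mk_smul, Submodule.Quotient.eq,
    Submodule.mem_smul_pointwise_iff_exists] at hc'
  obtain ⟨c'', -, hc''⟩ := hc'
  exact ⟨b', c'', by rw [hc'']; abel⟩

section

variable {R : Type u} [CommRing R] [IsLocalRing R] [IsNoetherianRing R] [IsDomain R] {d : ℕ}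

/-- Endomorphisms of a nonzero maximal Cohen-Macaulay ideal are homotheties. -/
theorem end_eq (hd : ringKrullDim R = d) (hCM : DepthGE R R d)
    (h2 : RegUpToTwo R) (I : Ideal R) (hI : I ≠ ⊥) (hIM : DepthGE R I d) (f : I →ₗ[R] I) :
    ∃ r : R, ∀ i, f i = r • i := by
  have hInt : Nontrivial I := by
    rw [Submodule.nontrivial_iff_ne_bot]; exact hI
  obtain ⟨z, hz, hz0⟩ := Submodule.exists_mem_ne_zero_of_ne_bot hI
  set i0 : I := ⟨z, hz⟩ with hi0
  have hcomm : ∀ i j : I, (i : R) * (f j : R) = (j : R) * (f i : R) := by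
    intro i j
    have h1 : (i : R) • j = (j : R) • i := Subtype.ext (mul_comm _ _)
    have h3 := congrArg f h1
    rw [map_smul, map_smul] at h3
    exact congrArg Subtype.val h3
  suffices h : ∃ c : R, (f i0 : R) = c * z by
    obtain ⟨c, hc⟩ := h
    refine ⟨c, fun i => Subtype.ext ?_⟩
    apply mul_left_cancel₀ hz0
    have h3 := hcomm i0 i
    rw [hc] at h3
    change z * (f i : R) = (i : R) * (c * z) at h3
    rw [h3]
    change _ = z * (c * (i : R))
    ring
  let b : Ideal R := Submodule.comap (LinearMap.mulRight R (f i0 : R)) (Ideal.span {z})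
  have hb : ∀ r, r ∈ b ↔ r * (f i0 : R) ∈ Ideal.span {z} := fun r => by
    simp [b, Submodule.mem_comap]
  have hloc : ∀ (p : Ideal R) [p.IsPrime], p.height ≤ (1 : ℕ) → ¬ b ≤ p := by
    intro p hp hht hle
    obtain ⟨g, hgI, hg0, s, hs, hsI⟩ := exists_locally_principal hd hCM h2 I hI hIM p
      (hht.trans (by norm_num))
    apply hs
    apply hle
    rw [hb, Ideal.mem_span_singleton']
    obtain ⟨r, hr⟩ := hsI (f ⟨g, hgI⟩ : R) (f ⟨g, hgI⟩).2
    refine ⟨r, ?_⟩
    apply mul_left_cancel₀ hg0
    have h3 := hcomm i0 ⟨g, hgI⟩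
    change z * (f ⟨g, hgI⟩ : R) = g * (f i0 : R) at h3
    calc g * (r * z) = z * (r * g) := by ring
      _ = z * (s * (f ⟨g, hgI⟩ : R)) := by rw [hr]
      _ = s * (z * (f ⟨g, hgI⟩ : R)) := by ring
      _ = g * (s * (f i0 : R)) := by rw [h3]; ring
  by_cases htop : b = ⊤
  · have h1 : (1 : R) ∈ b := by rw [htop]; trivial
    rw [hb, one_mul, Ideal.mem_span_singleton'] at h1
    obtain ⟨c, hc⟩ := h1
    exact ⟨c, hc.symm⟩
  · obtain ⟨rs, hlen, hmem, hreg, -⟩ := exists_seq hd 1 b htop hloc R R hCM hCM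
    match rs, hlen with
    | [s1, s2], _ =>
      have e1 := (hb _).mp (hmem s1 (by simp))
      have e2 := (hb _).mp (hmem s2 (by simp))
      rw [Ideal.mem_span_singleton'] at e1 e2
      obtain ⟨r1, hr1⟩ := e1
      obtain ⟨r2, hr2⟩ := e2
      have e3 : s2 • r1 = s1 • r2 := by
        apply mul_right_cancel₀ hz0
        rw [smul_eq_mul, smul_eq_mul, mul_assoc, mul_assoc, hr1, hr2]; ring
      obtain ⟨c, hc⟩ := IsRegular.two hreg e3
      refine ⟨c, ?_⟩
      have e4 : s1 • ((f i0 : R) - c * z) = 0 := by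
        rw [hc, smul_eq_mul] at hr1
        rw [smul_eq_mul, mul_sub, ← hr1]; ring
      exact sub_eq_zero.mp (IsRegular.one hreg e4)

/-- Every self-extension of a nonzero maximal Cohen-Macaulay ideal splits. -/
theorem splits (hd : ringKrullDim R = d) (hCM : DepthGE R R d)
    (h2 : RegUpToTwo R) (I : Ideal R) (hI : I ≠ ⊥) (hIM : DepthGE R I d)
    (E : Type u) [AddCommGroup E] [Module R E] (ι : I →ₗ[R] E) (π : E →ₗ[R] I)
    (hι : Function.Injective ι) (hπ : Function.Surjective π)
    (hex : ∀ e, π e = 0 ↔ ∃ i, ι i = e) :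
    ∃ σ : I →ₗ[R] E, ∀ i, π (σ i) = i := by
  classical
  have hInt : Nontrivial I := by
    rw [Submodule.nontrivial_iff_ne_bot]; exact hI
  obtain ⟨z, hz, hz0⟩ := Submodule.exists_mem_ne_zero_of_ne_bot hI
  -- maps `I → E` killed by `π`
  have hkill : ∀ θ : I →ₗ[R] E, (∀ i, π (θ i) = 0) → ∃ t : R, ∀ i, θ i = ι (t • i) := by
    intro θ hθ
    choose g hg using fun i => (hex (θ i)).mp (hθ i)
    let f : I →ₗ[R] I :=
      { toFun := g
        map_add' := fun a b => hι (by rw [map_add, hg, hg, hg, map_add])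
        map_smul' := fun r a => hι (by rw [map_smul, hg, RingHom.id_apply, hg, map_smul]) }
    obtain ⟨t, ht⟩ := end_eq hd hCM h2 I hI hIM f
    refine ⟨t, fun i => ?_⟩
    rw [← ht i]; exact (hg i).symm
  let a : Ideal R :=
    { carrier := {s | ∃ σ : I →ₗ[R] E, ∀ i, π (σ i) = s • i}
      add_mem' := by
        rintro s t ⟨σ, hσ⟩ ⟨τ, hτ⟩
        exact ⟨σ + τ, fun i => by rw [LinearMap.add_apply, map_add, hσ, hτ, add_smul]⟩
      zero_mem' := ⟨0, fun i => by simp⟩
      smul_mem' := by
        rintro r s ⟨σ, hσ⟩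
        exact ⟨r • σ, fun i => by
          rw [LinearMap.smul_apply, map_smul, hσ, smul_smul, smul_eq_mul]⟩ }
  have ha : ∀ s, s ∈ a ↔ ∃ σ : I →ₗ[R] E, ∀ i, π (σ i) = s • i := fun s => Iff.rfl
  have hloc : ∀ (p : Ideal R) [p.IsPrime], p.height ≤ (2 : ℕ) → ¬ a ≤ p := by
    intro p hp hht hle
    obtain ⟨g, hgI, hg0, s, hs, hsI⟩ := exists_locally_principal hd hCM h2 I hI hIM p hht
    apply hs
    apply hle
    rw [ha]
    obtain ⟨eg, heg⟩ := hπ ⟨g, hgI⟩
    choose r hr using fun i : I => hsI i i.2
    refine ⟨{ toFun := fun i => r i • eg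
              map_add' := ?_
              map_smul' := ?_ }, ?_⟩
    · intro i j
      rw [← add_smul]
      congr 1
      apply mul_right_cancel₀ hg0
      rw [add_mul, ← hr, ← hr, ← hr, ← mul_add]; rfl
    · intro t i
      rw [RingHom.id_apply, smul_smul]
      congr 1
      apply mul_right_cancel₀ hg0
      rw [mul_assoc, ← hr, ← hr]
      change s * (t * (i : R)) = _
      ring
    · intro i
      change π (r i • eg) = s • i
      rw [map_smul, heg]
      apply Subtype.ext
      exact (hr i).symm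
  by_cases htop : a = ⊤
  · have h1 : (1 : R) ∈ a := by rw [htop]; trivial
    obtain ⟨σ, hσ⟩ := (ha 1).mp h1
    exact ⟨σ, fun i => by rw [hσ, one_smul]⟩
  · obtain ⟨rs, hlen, hmem, hreg, hregI⟩ := exists_seq hd 2 a htop hloc R I hCM hIM
    match rs, hlen with
    | [s1, s2, s3], _ =>
      obtain ⟨σ1, hσ1⟩ := (ha _).mp (hmem s1 (by simp))
      obtain ⟨σ2, hσ2⟩ := (ha _).mp (hmem s2 (by simp))
      obtain ⟨σ3, hσ3⟩ := (ha _).mp (hmem s3 (by simp))
      obtain ⟨t12, ht12⟩ := hkill (s2 • σ1 - s1 • σ2) (fun i => by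
        simp only [LinearMap.sub_apply, LinearMap.smul_apply, map_sub, map_smul, hσ1, hσ2]
        rw [smul_comm, sub_self])
      obtain ⟨t13, ht13⟩ := hkill (s3 • σ1 - s1 • σ3) (fun i => by
        simp only [LinearMap.sub_apply, LinearMap.smul_apply, map_sub, map_smul, hσ1, hσ3]
        rw [smul_comm, sub_self])
      obtain ⟨t23, ht23⟩ := hkill (s3 • σ2 - s2 • σ3) (fun i => by
        simp only [LinearMap.sub_apply, LinearMap.smul_apply, map_sub, map_smul, hσ2, hσ3]
        rw [smul_comm, sub_self])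
      -- cocycle relation
      have hcoc : s3 * t12 = s2 * t13 + s1 * (-t23) := by
        have h3 : ι ((s3 * t12) • ⟨z, hz⟩) = ι ((s2 * t13 + s1 * (-t23)) • (⟨z, hz⟩ : I)) := by
          have e12 := ht12 ⟨z, hz⟩
          have e13 := ht13 ⟨z, hz⟩
          have e23 := ht23 ⟨z, hz⟩
          simp only [LinearMap.sub_apply, LinearMap.smul_apply, map_smul] at e12 e13 e23
          rw [map_smul, map_smul, add_smul, mul_smul, mul_smul, mul_smul, ← e12, ← e13, neg_smul,
            ← e23]
          simp only [smul_sub, smul_neg, smul_smul]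
          rw [mul_comm s2 s3, mul_comm s1 s3, mul_comm s1 s2]
          abel
        have h4 := congrArg Subtype.val (hι h3)
        exact mul_right_cancel₀ hz0 h4
      obtain ⟨b', c', hbc⟩ := IsRegular.three (M := R) hreg (a := t12) (b := t13) (c := -t23) hcoc
      simp only [smul_eq_mul] at hbc
      -- regularity on E
      have hE1 : ∀ e : E, s1 • e = 0 → e = 0 := by
        intro e he
        have h3 : s1 • π e = 0 := by rw [← map_smul, he, map_zero]
        have h4 := IsRegular.one hregI h3
        obtain ⟨x, hx⟩ := (hex e).mp h4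
        rw [← hx, ← map_smul] at he
        have h5 : s1 • x = 0 := hι (by rw [he, map_zero])
        rw [← hx, IsRegular.one hregI h5, map_zero]
      have hE2 : ∀ e e' : E, s2 • e = s1 • e' → ∃ e'', e = s1 • e'' := by
        intro e e' hee
        have h3 : s2 • π e = s1 • π e' := by rw [← map_smul, hee, map_smul]
        obtain ⟨c, hc⟩ := IsRegular.two hregI h3
        obtain ⟨e1, he1⟩ := hπ c
        have h4 : π (e - s1 • e1) = 0 := by rw [map_sub, map_smul, he1, hc, sub_self]
        obtain ⟨x, hx⟩ := (hex _).mp h4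
        have h5 : s1 • (e' - s2 • e1) = s2 • ι x := by
          rw [hx, smul_sub, smul_sub, ← hee, smul_comm]
        have h6 : π (e' - s2 • e1) = 0 := by
          have h7 : s1 • π (e' - s2 • e1) = 0 := by
            rw [← map_smul, h5, map_smul]
            have : π (ι x) = 0 := (hex _).mpr ⟨x, rfl⟩
            rw [this, smul_zero]
          exact IsRegular.one hregI h7
        obtain ⟨y, hy⟩ := (hex _).mp h6
        rw [← hy, ← map_smul, ← map_smul] at h5
        obtain ⟨x', hx'⟩ := IsRegular.two hregI (hι h5).symm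
        refine ⟨e1 + ι x', ?_⟩
        rw [smul_add, ← map_smul, ← hx', hx]; abel
      have hτ : ∀ i, s2 • (σ1 i - ι (b' • i)) = s1 • (σ2 i + ι (c' • i)) := by
        intro i
        have e12 := ht12 i
        simp only [LinearMap.sub_apply, LinearMap.smul_apply] at e12
        rw [hbc, add_smul, mul_smul, mul_smul, map_add, map_smul, map_smul (f := ι) s1,
          sub_eq_iff_eq_add] at e12
        rw [smul_sub, e12, smul_add]; abel
      choose τ hτ' using fun i => hE2 _ _ (hτ i)
      have hs1inj : ∀ e e' : E, s1 • e = s1 • e' → e = e' := by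
        intro e e' h
        rw [← sub_eq_zero]
        apply hE1
        rw [smul_sub, h, sub_self]
      refine ⟨{ toFun := τ
                map_add' := ?_
                map_smul' := ?_ }, ?_⟩
      · intro i j
        apply hs1inj
        rw [smul_add, ← hτ', ← hτ', ← hτ', map_add, smul_add, map_add]; abel
      · intro r i
        apply hs1inj
        rw [RingHom.id_apply, smul_comm s1 r, ← hτ', ← hτ', map_smul, smul_sub, smul_comm b' r,
          map_smul (f := ι) r]
      · intro i
        change π (τ i) = i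
        have h3 : s1 • (π (τ i) - i) = 0 := by
          rw [smul_sub, ← map_smul, ← hτ', map_sub, hσ1]
          have : π (ι (b' • i)) = 0 := (hex _).mpr ⟨_, rfl⟩
          rw [this, sub_zero, sub_self]
        exact sub_eq_zero.mp (IsRegular.one hregI h3)

end

end Pool.Agent.W_cbb711
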